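import Mathlib

/-!
# Markov-Kakutani fixed point theorem (linear form)
-/

set_option autoImplicit false

namespace Pool.Agent.helper65.MK

open Set Filter Topology Pointwise

variable {E : Type*} [AddCommGroup E] [Module ℝ E] [TopologicalSpace E]
  [IsTopologicalAddGroup E] [ContinuousSMul ℝ E] [T2Space E]

/-- One continuous linear map of a compact convex set into itself has a fixed point. -/
theorem single {Q : Set E} (hc : IsCompact Q) (hconv : Convex ℝ Q) (hne : Q.Nonempty)
    (f : E →ₗ[ℝ] E) (hf : Continuous f) (hQ : MapsTo f Q Q) : ∃ x ∈ Q, f x = x := by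
  obtain ⟨y, hy⟩ := hne
  have hit : ∀ n : ℕ, (f ^ n) y ∈ Q := by
    intro n
    induction n with
    | zero => simpa using hy
    | succ n ih =>
      rw [pow_succ', Module.End.mul_apply]
      exact hQ ih
  let x : ℕ → E := fun n => ∑ i ∈ Finset.range (n + 1), ((n : ℝ) + 1)⁻¹ • (f ^ i) y
  have hx : ∀ n, x n ∈ Q := by
    intro n
    refine hconv.sum_mem (fun i _ => by positivity) ?_ (fun i _ => hit i)
    rw [Finset.sum_const, Finset.card_range, nsmul_eq_mul]
    push_cast
    exact mul_inv_cancel₀ (by positivity)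
  have hdiff : ∀ n, f (x n) - x n = ((n : ℝ) + 1)⁻¹ • ((f ^ (n + 1)) y - y) := by
    intro n
    simp only [x]
    rw [← Finset.smul_sum, map_smul, ← smul_sub, map_sum]
    congr 1
    have : ∀ i ∈ Finset.range (n + 1), f ((f ^ i) y) = (f ^ (i + 1)) y := by
      intro i _
      rw [pow_succ', Module.End.mul_apply]
    rw [Finset.sum_congr rfl this, ← Finset.sum_sub_distrib,
      Finset.sum_range_sub (fun i => (f ^ i) y)]
    simp
  -- limit along an ultrafilter
  let U : Ultrafilter ℕ := hyperfilter ℕ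
  obtain ⟨z, hz, hxz⟩ := hc.ultrafilter_le_nhds (U.map x) (by
    rw [Ultrafilter.coe_map, le_principal_iff, mem_map]
    exact Filter.univ_mem' hx)
  have hxz' : Tendsto x U (𝓝 z) := hxz
  refine ⟨z, hz, ?_⟩
  have h1 : Tendsto (fun n => f (x n) - x n) U (𝓝 (f z - z)) :=
    ((hf.tendsto z).comp hxz').sub hxz'
  have hb : Bornology.IsVonNBounded ℝ (Q - Q) := hc.isVonNBounded ℝ |>.sub (hc.isVonNBounded ℝ)
  have h2 : Tendsto (fun n => f (x n) - x n) U (𝓝 0) := by
    have h3 : Tendsto (fun n : ℕ => ((n : ℝ) + 1)⁻¹) U (𝓝 0) := by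
      have := tendsto_one_div_add_atTop_nhds_zero_nat (𝕜 := ℝ)
      simp only [one_div] at this
      exact this.mono_left (Nat.hyperfilter_le_atTop)
    have h4 := hb.smul_tendsto_zero (x := fun n => (f ^ (n + 1)) y - y)
      (Eventually.of_forall fun n => Set.sub_mem_sub (hit _) hy) h3
    refine h4.congr fun n => ?_
    rw [hdiff]
    rfl
  have := tendsto_nhds_unique h1 h2
  exact sub_eq_zero.1 this

/-- **Markov-Kakutani.** A set `S` of pairwise commuting continuous linear maps which map the
nonempty compact convex set `Q` into itself has a common fixed point in `Q`. -/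
theorem markov_kakutani {Q : Set E} (hc : IsCompact Q) (hconv : Convex ℝ Q) (hne : Q.Nonempty)
    (S : Set (E →ₗ[ℝ] E)) (hcont : ∀ f ∈ S, Continuous f)
    (hcomm : ∀ f ∈ S, ∀ g ∈ S, ∀ x, f (g x) = g (f x))
    (hS : ∀ f ∈ S, MapsTo f Q Q) : ∃ x ∈ Q, ∀ f ∈ S, f x = x := by
  classical
  have key : ∀ F : Finset (E →ₗ[ℝ] E), (∀ f ∈ F, f ∈ S) →
      (Q ∩ ⋂ f ∈ F, {x | f x = x}).Nonempty := by
    intro F
    induction F using Finset.induction_on with
    | empty => intro _; simpa using hne
    | insert g F hg ih =>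
      intro hF
      have hFS : ∀ f ∈ F, f ∈ S := fun f hf => hF f (Finset.mem_insert_of_mem hf)
      have hgS : g ∈ S := hF g (Finset.mem_insert_self g F)
      have h1 := ih hFS
      set K : Set E := Q ∩ ⋂ f ∈ F, {x | f x = x} with hK
      have hKc : IsCompact K := by
        refine hc.inter_right (isClosed_biInter fun f hf => ?_)
        exact isClosed_eq (hcont f (hFS f hf)) continuous_id
      have hKconv : Convex ℝ K := by
        refine hconv.inter (convex_iInter fun f => convex_iInter fun hf => ?_)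
        intro a ha b hb s t _ _ _
        simp only [mem_ofPred_eq] at ha hb ⊢
        rw [map_add, map_smul, map_smul, ha, hb]
      have hKg : MapsTo g K K := by
        rintro a ⟨haQ, haF⟩
        refine ⟨hS g hgS haQ, ?_⟩
        simp only [mem_iInter, mem_ofPred_eq] at haF ⊢
        intro f hf
        rw [hcomm f (hFS f hf) g hgS, haF f hf]
      obtain ⟨x, hxK, hx⟩ := single hKc hKconv h1 g (hcont g hgS) hKg
      refine ⟨x, hxK.1, ?_⟩
      simp only [Finset.mem_insert, iInter_iInter_eq_or_left, mem_inter_iff, mem_ofPred_eq]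
      exact ⟨hx, hxK.2⟩
  have h2 : (Q ∩ ⋂ f : S, {x | f.1 x = x}).Nonempty := by
    refine hc.inter_iInter_nonempty _ (fun f => isClosed_eq (hcont f.1 f.2) continuous_id) ?_
    intro u
    obtain ⟨x, hxQ, hx⟩ := key (u.image Subtype.val) (by
      intro f hf
      obtain ⟨f', _, rfl⟩ := Finset.mem_image.1 hf
      exact f'.2)
    refine ⟨x, hxQ, ?_⟩
    simp only [mem_iInter, mem_ofPred_eq] at hx ⊢
    intro f hf
    exact hx f.1 (Finset.mem_image_of_mem _ hf)
  obtain ⟨x, hxQ, hx⟩ := h2
  refine ⟨x, hxQ, fun f hf => ?_⟩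
  simp only [mem_iInter, mem_ofPred_eq] at hx
  exact hx ⟨f, hf⟩

end Pool.Agent.helper65.MK
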