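import Pool.Agent.helper65.YDefs

open MeasureTheory Matrix
open scoped ContDiff Topology

namespace Pool.Agent.helper65.Y

/-- smooth away from the origin -/
def Sm (f : E3 → ℝ) : Prop := ContDiffOn ℝ ∞ f {0}ᶜ

lemma isOpen_ne : IsOpen ({0}ᶜ : Set E3) := isOpen_compl_singleton

lemma mem_nhds_ne {x : E3} (hx : x ≠ 0) : ({0}ᶜ : Set E3) ∈ 𝓝 x :=
  isOpen_ne.mem_nhds hx

variable {f g : E3 → ℝ} {x : E3} {i j k : Fin 3}

lemma Sm.contDiffAt (hf : Sm f) (hx : x ≠ 0) : ContDiffAt ℝ ∞ f x :=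
  ContDiffOn.contDiffAt hf (mem_nhds_ne hx)

lemma Sm.diff (hf : Sm f) (hx : x ≠ 0) : DifferentiableAt ℝ f x :=
  (hf.contDiffAt hx).differentiableAt (by simp)

lemma Sm.continuousOn (hf : Sm f) : ContinuousOn f {0}ᶜ := ContDiffOn.continuousOn hf

lemma Sm.pd (hf : Sm f) (i : Fin 3) : Sm (pd i f) := by
  have h : ContDiffOn ℝ ∞ (fderiv ℝ f) {0}ᶜ :=
    ContDiffOn.fderiv_of_isOpen hf isOpen_ne (by simp)
  exact h.clm_apply contDiffOn_const

lemma Sm.const (c : ℝ) : Sm (fun _ => c) := contDiffOn_const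

lemma Sm.add (hf : Sm f) (hg : Sm g) : Sm (fun x => f x + g x) := ContDiffOn.add hf hg
lemma Sm.sub (hf : Sm f) (hg : Sm g) : Sm (fun x => f x - g x) := ContDiffOn.sub hf hg
lemma Sm.mul (hf : Sm f) (hg : Sm g) : Sm (fun x => f x * g x) := ContDiffOn.mul hf hg
lemma Sm.neg (hf : Sm f) : Sm (fun x => - f x) := ContDiffOn.neg hf
lemma Sm.exp (hf : Sm f) : Sm (fun x => Real.exp (f x)) := ContDiffOn.exp hf
lemma Sm.cos (hf : Sm f) : Sm (fun x => Real.cos (f x)) := ContDiffOn.cos hf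
lemma Sm.sin (hf : Sm f) : Sm (fun x => Real.sin (f x)) := ContDiffOn.sin hf
lemma Sm.pow (hf : Sm f) (n : ℕ) : Sm (fun x => f x ^ n) := ContDiffOn.pow hf n
lemma Sm.inv (hf : Sm f) (h0 : ∀ x, x ≠ 0 → f x ≠ 0) : Sm (fun x => (f x)⁻¹) :=
  ContDiffOn.inv hf h0
lemma Sm.sum {ι : Type*} {s : Finset ι} {F : ι → E3 → ℝ} (h : ∀ i ∈ s, Sm (F i)) :
    Sm (fun x => ∑ i ∈ s, F i x) := ContDiffOn.sum h

lemma Sm.norm : Sm (fun x => ‖x‖) := by
  intro x hx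
  exact (contDiffAt_norm ℝ hx).contDiffWithinAt

lemma Sm.coord (i : Fin 3) : Sm (fun x => x i) := by
  apply ContDiff.contDiffOn
  fun_prop

lemma Sm.log (hf : Sm f) (h0 : ∀ x, x ≠ 0 → f x ≠ 0) : Sm (fun x => Real.log (f x)) :=
  ContDiffOn.log hf h0

lemma pd_congr_nhds (h : f =ᶠ[𝓝 x] g) : pd i f x = pd i g x := by
  unfold Y.pd; rw [h.fderiv_eq]

lemma pd_congr (h : ∀ y, y ≠ 0 → f y = g y) (hx : x ≠ 0) : Y.pd i f x = Y.pd i g x := by
  apply pd_congr_nhds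
  filter_upwards [mem_nhds_ne hx] with y hy using h y hy

lemma pd_const (c : ℝ) : Y.pd i (fun _ => c) x = 0 := by
  unfold Y.pd; simp

lemma pd_add (hf : Sm f) (hg : Sm g) (hx : x ≠ 0) :
    Y.pd i (fun y => f y + g y) x = Y.pd i f x + Y.pd i g x := by
  unfold Y.pd; rw [fderiv_fun_add (hf.diff hx) (hg.diff hx)]; rfl

lemma pd_sub (hf : Sm f) (hg : Sm g) (hx : x ≠ 0) :
    Y.pd i (fun y => f y - g y) x = Y.pd i f x - Y.pd i g x := by
  unfold Y.pd; rw [fderiv_fun_sub (hf.diff hx) (hg.diff hx)]; rfl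

lemma pd_neg : Y.pd i (fun y => - f y) x = - Y.pd i f x := by
  unfold Y.pd; rw [fderiv_fun_neg]; rfl

lemma pd_mul (hf : Sm f) (hg : Sm g) (hx : x ≠ 0) :
    Y.pd i (fun y => f y * g y) x = Y.pd i f x * g x + f x * Y.pd i g x := by
  unfold Y.pd; rw [fderiv_fun_mul (hf.diff hx) (hg.diff hx)]
  simp; ring

lemma pd_const_mul (c : ℝ) (hf : Sm f) (hx : x ≠ 0) :
    Y.pd i (fun y => c * f y) x = c * Y.pd i f x := by
  rw [pd_mul (Sm.const c) hf hx, pd_const]; ring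

lemma pd_exp (hf : Sm f) (hx : x ≠ 0) :
    Y.pd i (fun y => Real.exp (f y)) x = Real.exp (f x) * Y.pd i f x := by
  unfold Y.pd; rw [fderiv_exp (hf.diff hx)]; simp

lemma pd_cos (hf : Sm f) (hx : x ≠ 0) :
    Y.pd i (fun y => Real.cos (f y)) x = - Real.sin (f x) * Y.pd i f x := by
  unfold Y.pd; rw [fderiv_cos (hf.diff hx)]; simp

lemma pd_sin (hf : Sm f) (hx : x ≠ 0) :
    Y.pd i (fun y => Real.sin (f y)) x = Real.cos (f x) * Y.pd i f x := by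
  unfold Y.pd; rw [fderiv_sin (hf.diff hx)]; simp

lemma pd_sum {ι : Type*} {s : Finset ι} {F : ι → E3 → ℝ} (h : ∀ i ∈ s, Sm (F i)) (hx : x ≠ 0) :
    Y.pd i (fun y => ∑ a ∈ s, F a y) x = ∑ a ∈ s, Y.pd i (F a) x := by
  unfold Y.pd
  rw [fderiv_fun_sum (fun a ha => (h a ha).diff hx)]
  simp

lemma pd_coord : Y.pd i (fun y : E3 => y j) x = if i = j then 1 else 0 := by
  unfold Y.pd
  have : (fun y : E3 => y j) = (EuclideanSpace.proj j : E3 →L[ℝ] ℝ) := by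
    ext y; simp
  rw [this, ContinuousLinearMap.fderiv]
  simp [eq_comm]

lemma pd_comm (hf : Sm f) (hx : x ≠ 0) : Y.pd i (Y.pd j f) x = Y.pd j (Y.pd i f) x := by
  have h2 : IsSymmSndFDerivAt ℝ f x :=
    (hf.contDiffAt hx).isSymmSndFDerivAt (by simpa using ENat.LEInfty.out)
  have hd : DifferentiableAt ℝ (fderiv ℝ f) x := by
    have h : ContDiffOn ℝ ∞ (fderiv ℝ f) {0}ᶜ :=
      ContDiffOn.fderiv_of_isOpen hf isOpen_ne (by simp)
    exact (h.contDiffAt (mem_nhds_ne hx)).differentiableAt (by simp)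
  have key : ∀ a b : Fin 3, Y.pd a (Y.pd b f) x =
      fderiv ℝ (fderiv ℝ f) x (EuclideanSpace.single a 1) (EuclideanSpace.single b 1) := by
    intro a b
    unfold Y.pd
    rw [fderiv_clm_apply hd (differentiableAt_const _)]
    simp
  rw [key, key]
  exact h2 _ _

end Pool.Agent.helper65.Y
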