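import Mathlib

open MeasureTheory Matrix
open scoped ContDiff

namespace Pool.Agent.helper65.Y

/-- Euclidean 3-space; all tensors are written in its standard coordinates. -/
abbrev E3 : Type := EuclideanSpace ℝ (Fin 3)

/-- The `i`-th partial derivative. -/
noncomputable def pd (i : Fin 3) (f : E3 → ℝ) (x : E3) : ℝ :=
  fderiv ℝ f x (EuclideanSpace.single i (1 : ℝ))

/-- Christoffel symbols `Γ^k_{ij}` of the metric with coordinate matrix `g`. -/
noncomputable def Gam (g : E3 → Matrix (Fin 3) (Fin 3) ℝ) (k i j : Fin 3) (x : E3) : ℝ :=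
  (1 / 2) * ∑ l, (g x)⁻¹ k l *
    (pd i (fun y => g y j l) x + pd j (fun y => g y i l) x - pd l (fun y => g y i j) x)

/-- The Ricci tensor
`R_{ij} = ∂_k Γ^k_{ij} - ∂_j Γ^k_{ik} + Γ^k_{kl} Γ^l_{ij} - Γ^k_{jl} Γ^l_{ik}`. -/
noncomputable def Ric (g : E3 → Matrix (Fin 3) (Fin 3) ℝ) (x : E3) :
    Matrix (Fin 3) (Fin 3) ℝ :=
  Matrix.of fun i j => ∑ k, (pd k (Gam g k i j) x - pd j (Gam g k i k) x +
    ∑ l, (Gam g k k l x * Gam g l i j x - Gam g k j l x * Gam g l i k x))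

/-- The scalar curvature `g^{ij} R_{ij}`. -/
noncomputable def Scal (g : E3 → Matrix (Fin 3) (Fin 3) ℝ) (x : E3) : ℝ :=
  ((g x)⁻¹ * Ric g x).trace

/-- The Schouten tensor `Ric - (R/4) g` with one index raised: the endomorphism `g⁻¹ S_g`. -/
noncomputable def Sch (g : E3 → Matrix (Fin 3) (Fin 3) ℝ) (x : E3) :
    Matrix (Fin 3) (Fin 3) ℝ :=
  (g x)⁻¹ * (Ric g x - (Scal g x / 4) • g x)

/-- `σ₁(g)`, first elementary symmetric function of the eigenvalues of `g⁻¹ S_g`. -/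
noncomputable def sig1 (g : E3 → Matrix (Fin 3) (Fin 3) ℝ) (x : E3) : ℝ :=
  (Sch g x).trace

/-- `σ₂(g)`, second elementary symmetric function of the eigenvalues of `g⁻¹ S_g`. -/
noncomputable def sig2 (g : E3 → Matrix (Fin 3) (Fin 3) ℝ) (x : E3) : ℝ :=
  (1 / 2) * ((Sch g x).trace ^ 2 - (Sch g x * Sch g x).trace)

/-- The Riemannian volume density `√ det g`. -/
noncomputable def dens (g : E3 → Matrix (Fin 3) (Fin 3) ℝ) (x : E3) : ℝ :=
  Real.sqrt (g x).det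

/-- The fundamental domain `{1 ≤ ‖x‖ < c}` of the dilation `x ↦ c x` acting on `ℝ³ ∖ {0}`. -/
def Dom (c : ℝ) : Set E3 := {x | 1 ≤ ‖x‖ ∧ ‖x‖ < c}

/-- The product metric of `S¹ × S²`, written on the cover `ℝ³ ∖ {0}`: `‖x‖⁻² |dx|²`. -/
noncomputable def g0 (x : E3) : Matrix (Fin 3) (Fin 3) ℝ :=
  (‖x‖ ^ 2)⁻¹ • (1 : Matrix (Fin 3) (Fin 3) ℝ)

end Pool.Agent.helper65.Y
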