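import Pool.Agent.helper65.YMain

open MeasureTheory Filter Asymptotics
open scoped ContDiff Topology

namespace Pool.Agent.helper65.Y

variable {c : ℝ} {d e : ℤ} {f g h w φ : E3 → ℝ} {x : E3} {i j k : Fin 3}

/-! ### the perturbed potential -/

noncomputable def pert (w φ : E3 → ℝ) (s : ℝ) (x : E3) : ℝ := w x + s * φ x

lemma pert_sm (hw : Sm w) (hφ : Sm φ) (s : ℝ) : Sm (pert w φ s) := hw.add ((Sm.const s).mul hφ)

lemma pert_LH (hw : LH c w) (hφ : HS c 0 φ) (s : ℝ) : LH c (pert w φ s) :=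
  ⟨pert_sm hw.sm hφ.sm s, fun x hx => by
    unfold pert; rw [hw.hom x hx, hφ.hom x hx]; simp; ring⟩

lemma pd_pert (hw : Sm w) (hφ : Sm φ) (s : ℝ) (hx : x ≠ 0) (a : Fin 3) :
    pd a (pert w φ s) x = pd a w x + s * pd a φ x := by
  unfold pert
  rw [pd_add hw ((Sm.const s).mul hφ) hx, pd_const_mul _ hφ hx]

lemma pd_pd_pert (hw : Sm w) (hφ : Sm φ) (s : ℝ) (hx : x ≠ 0) (a : Fin 3) :
    pd a (pd a (pert w φ s)) x = pd a (pd a w) x + s * pd a (pd a φ) x := by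
  have h1 : pd a (pd a (pert w φ s)) x = pd a (fun x => pd a w x + s * pd a φ x) x :=
    pd_congr (fun y hy => pd_pert hw hφ s hy a) hx
  rw [h1, pd_add (hw.pd a) ((Sm.const s).mul (hφ.pd a)) hx, pd_const_mul _ (hφ.pd a) hx]

lemma Q_pert (hw : Sm w) (hφ : Sm φ) (s : ℝ) (hx : x ≠ 0) :
    Q (pert w φ s) x = Q w x + 2 * s * Dt w φ x + s ^ 2 * Q φ x := by
  simp only [Q, Dt, pd_pert hw hφ s hx, Fin.sum_univ_three]; ring

lemma Lap_pert (hw : Sm w) (hφ : Sm φ) (s : ℝ) (hx : x ≠ 0) :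
    Lap (pert w φ s) x = Lap w x + s * Lap φ x := by
  simp only [Lap, pd_pd_pert hw hφ s hx, Fin.sum_univ_three]; ring

lemma Vf_expand (hw : Sm w) (hφ : Sm φ) :
    (fun s => Vf c (pert w φ s) - ((∫ x in Dom c, Real.exp (-3 * w x))
      + s * (∫ x in Dom c, (-3 * φ x * Real.exp (-3 * w x) + 0))
      + s ^ 2 * ∫ x in Dom c, ((-3) ^ 2 / 2 * φ x ^ 2 * Real.exp (-3 * w x)
          + -3 * φ x * 0 + 0))) =O[𝓝 0] fun s : ℝ => s ^ 3 := by
  obtain ⟨C, hC⟩ := taylor_int (-3) hφ (exp3_sm hw) (Sm.const 0) (Sm.const 0) (Sm.const 0) c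
  refine bigO_of_bound (C := C) fun s hs => ?_
  have h := hC s hs
  have e : Vf c (pert w φ s) = ∫ x in Dom c, Real.exp (-3 * s * φ x) *
      (Real.exp (-3 * w x) + s * 0 + s ^ 2 * 0 + s ^ 3 * 0) := by
    unfold Vf
    apply setIntegral_congr_fun Dom_meas
    intro x hx
    simp only [mul_zero, add_zero]
    rw [← Real.exp_add]
    unfold pert
    congr 1; ring
  rw [e]
  exact h

lemma S1f_expand (hw : Sm w) (hφ : Sm φ) :
    (fun s => S1f c (pert w φ s) - ((∫ x in Dom c, 1 / 2 * (Real.exp (-w x) * Q w x))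
      + s * (∫ x in Dom c, (-1 * φ x * (1 / 2 * (Real.exp (-w x) * Q w x))
          + Real.exp (-w x) * Dt w φ x))
      + s ^ 2 * ∫ x in Dom c, ((-1) ^ 2 / 2 * φ x ^ 2 * (1 / 2 * (Real.exp (-w x) * Q w x))
          + -1 * φ x * (Real.exp (-w x) * Dt w φ x)
          + 1 / 2 * (Real.exp (-w x) * Q φ x)))) =O[𝓝 0] fun s : ℝ => s ^ 3 := by
  have s0 : Sm (fun x => 1 / 2 * (Real.exp (-w x) * Q w x)) :=
    (Sm.const _).mul (hw.neg.exp.mul hw.Q)
  have s1 : Sm (fun x => Real.exp (-w x) * Dt w φ x) := hw.neg.exp.mul (hw.Dt hφ)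
  have s2 : Sm (fun x => 1 / 2 * (Real.exp (-w x) * Q φ x)) :=
    (Sm.const _).mul (hw.neg.exp.mul hφ.Q)
  obtain ⟨C, hC⟩ := taylor_int (-1) hφ s0 s1 s2 (Sm.const 0) c
  refine bigO_of_bound (C := C) fun s hs => ?_
  have h := hC s hs
  have e : S1f c (pert w φ s) = ∫ x in Dom c, Real.exp (-1 * s * φ x) *
      (1 / 2 * (Real.exp (-w x) * Q w x) + s * (Real.exp (-w x) * Dt w φ x)
        + s ^ 2 * (1 / 2 * (Real.exp (-w x) * Q φ x)) + s ^ 3 * 0) := by
    unfold S1f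
    rw [← integral_const_mul]
    apply setIntegral_congr_fun Dom_meas
    intro x hx
    simp only
    rw [Q_pert hw hφ s (ne_of_mem_Dom hx)]
    have : Real.exp (-pert w φ s x) = Real.exp (-1 * s * φ x) * Real.exp (-w x) := by
      rw [← Real.exp_add]; unfold pert; congr 1; ring
    rw [this]; ring
  rw [e]
  exact h

lemma S2f_expand (hw : Sm w) (hφ : Sm φ) :
    (fun s => S2f c (pert w φ s) - ((∫ x in Dom c, -(1 / 4) * (Real.exp (w x) * (Q w x * Lap w x)))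
      + s * (∫ x in Dom c, (1 * φ x * (-(1 / 4) * (Real.exp (w x) * (Q w x * Lap w x)))
          + -(1 / 4) * (Real.exp (w x) * (2 * Dt w φ x * Lap w x + Q w x * Lap φ x))))
      + s ^ 2 * ∫ x in Dom c, (1 ^ 2 / 2 * φ x ^ 2 *
            (-(1 / 4) * (Real.exp (w x) * (Q w x * Lap w x)))
          + 1 * φ x * (-(1 / 4) * (Real.exp (w x) * (2 * Dt w φ x * Lap w x + Q w x * Lap φ x)))
          + -(1 / 4) * (Real.exp (w x) * (Q φ x * Lap w x + 2 * Dt w φ x * Lap φ x)))))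
      =O[𝓝 0] fun s : ℝ => s ^ 3 := by
  have sD := hw.Dt hφ
  have s0 : Sm (fun x => -(1 / 4) * (Real.exp (w x) * (Q w x * Lap w x))) :=
    (Sm.const _).mul (hw.exp.mul (hw.Q.mul hw.Lap))
  have s1 : Sm (fun x => -(1 / 4) * (Real.exp (w x) *
      (2 * Dt w φ x * Lap w x + Q w x * Lap φ x))) :=
    (Sm.const _).mul (hw.exp.mul ((((Sm.const 2).mul sD).mul hw.Lap).add (hw.Q.mul hφ.Lap)))
  have s2 : Sm (fun x => -(1 / 4) * (Real.exp (w x) *
      (Q φ x * Lap w x + 2 * Dt w φ x * Lap φ x))) :=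
    (Sm.const _).mul (hw.exp.mul ((hφ.Q.mul hw.Lap).add (((Sm.const 2).mul sD).mul hφ.Lap)))
  have s3 : Sm (fun x => -(1 / 4) * (Real.exp (w x) * (Q φ x * Lap φ x))) :=
    (Sm.const _).mul (hw.exp.mul (hφ.Q.mul hφ.Lap))
  obtain ⟨C, hC⟩ := taylor_int 1 hφ s0 s1 s2 s3 c
  refine bigO_of_bound (C := C) fun s hs => ?_
  have h := hC s hs
  have e : S2f c (pert w φ s) = ∫ x in Dom c, Real.exp (1 * s * φ x) *
      (-(1 / 4) * (Real.exp (w x) * (Q w x * Lap w x))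
        + s * (-(1 / 4) * (Real.exp (w x) * (2 * Dt w φ x * Lap w x + Q w x * Lap φ x)))
        + s ^ 2 * (-(1 / 4) * (Real.exp (w x) * (Q φ x * Lap w x + 2 * Dt w φ x * Lap φ x)))
        + s ^ 3 * (-(1 / 4) * (Real.exp (w x) * (Q φ x * Lap φ x)))) := by
    unfold S2f
    rw [← integral_const_mul]
    apply setIntegral_congr_fun Dom_meas
    intro x hx
    simp only
    rw [Q_pert hw hφ s (ne_of_mem_Dom hx), Lap_pert hw hφ s (ne_of_mem_Dom hx)]
    have : Real.exp (pert w φ s x) = Real.exp (1 * s * φ x) * Real.exp (w x) := by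
      rw [← Real.exp_add]; unfold pert; congr 1; ring
    rw [this]; ring
  rw [e]
  exact h

/-! ### openness of the cone -/

lemma HS.zpow_hom (hc : 0 < c) (hf : HS c d f) (n : ℤ) (hx : x ≠ 0) :
    f (c ^ n • x) = (c ^ d) ^ n * f x := by
  have hc' : c ≠ 0 := hc.ne'
  have hcd : c ^ d ≠ 0 := zpow_ne_zero _ hc'
  have hpos : ∀ (m : ℕ) (y : E3), y ≠ 0 → f (c ^ m • y) = (c ^ d) ^ m * f y := by
    intro m
    induction m with
    | zero => intro y _; simp
    | succ m ih =>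
      intro y hy
      have hy' : c ^ m • y ≠ 0 := smul_ne_zero (pow_ne_zero _ hc') hy
      rw [pow_succ', mul_smul, hf.hom _ hy', ih y hy, pow_succ']; ring
  obtain ⟨m, rfl | rfl⟩ := n.eq_nat_or_neg
  · rw [zpow_natCast, zpow_natCast]; exact hpos m x hx
  · have hy : c ^ (-(m:ℤ)) • x ≠ 0 := smul_ne_zero (zpow_ne_zero _ hc') hx
    have h1 := hpos m _ hy
    rw [smul_smul, ← zpow_natCast, ← zpow_add₀ hc', add_neg_cancel, zpow_zero, one_smul] at h1
    rw [h1, ← mul_assoc, ← zpow_natCast (c ^ d) m, ← zpow_add₀ hcd, neg_add_cancel, zpow_zero,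
      one_mul]

lemma exists_zpow_mem_Dom (hc : 1 < c) (hx : x ≠ 0) : ∃ n : ℤ, c ^ n • x ∈ Dom c := by
  have hc0 : 0 < c := by linarith
  obtain ⟨n, h1, h2⟩ := exists_mem_Ico_zpow (norm_pos_iff.2 hx) hc
  refine ⟨-n, ?_⟩
  have hn : ‖c ^ (-n) • x‖ = c ^ (-n) * ‖x‖ := by
    rw [norm_smul, Real.norm_of_nonneg (zpow_pos hc0 _).le]
  have hcn : 0 < c ^ (-n) := zpow_pos hc0 _
  constructor
  · rw [hn]
    calc (1:ℝ) = c ^ (-n) * c ^ n := by rw [← zpow_add₀ hc0.ne']; simp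
      _ ≤ c ^ (-n) * ‖x‖ := by gcongr
  · rw [hn]
    calc c ^ (-n) * ‖x‖ < c ^ (-n) * c ^ (n + 1) := by gcongr
      _ = c := by rw [← zpow_add₀ hc0.ne']; simp

lemma Q_HS (hc : 0 < c) (hw : LH c w) : HS c (-2) (Q w) := by
  have : HS c (-2) (fun x => ∑ i, pd i w x * pd i w x) := HS.sum fun i _ =>
    ((hw.pd hc i).mul hc.ne' (hw.pd hc i)).congr (by norm_num)
  refine ⟨hw.sm.Q, fun x hx => ?_⟩
  have := this.hom x hx
  simpa [Q, sq] using this

lemma Lap_HS (hc : 0 < c) (hw : LH c w) : HS c (-2) (Lap w) := by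
  have : HS c (-2) (fun x => ∑ i, pd i (pd i w) x) := HS.sum fun i _ =>
    ((hw.pd hc i).pd hc.ne' i).congr (by norm_num)
  exact ⟨hw.sm.Lap, this.hom⟩

lemma Ps_of_Dom (hc : 1 < c) (hw : LH c w) (h : ∀ x ∈ Dom c, 0 < Lap w x - Q w x / 2) :
    Ps w := by
  have hc0 : 0 < c := by linarith
  intro x hx
  obtain ⟨n, hn⟩ := exists_zpow_mem_Dom hc hx
  have h1 := h _ hn
  rw [(Lap_HS hc0 hw).zpow_hom hc0 n hx, (Q_HS hc0 hw).zpow_hom hc0 n hx] at h1
  have h2 : 0 < (c ^ (-2:ℤ)) ^ n := zpow_pos (zpow_pos hc0 _) _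
  have h3 : 0 < (c ^ (-2:ℤ)) ^ n * (Lap w x - Q w x / 2) := by linarith
  exact (pos_iff_pos_of_mul_pos h3).1 h2

lemma lower_bound (hh : Sm h) (hpos : ∀ x, x ≠ 0 → 0 < h x) (c : ℝ) :
    ∃ m, 0 < m ∧ ∀ x ∈ Dom c, m ≤ h x := by
  have h1 : Sm (fun x => (h x)⁻¹) := hh.inv fun x hx => (hpos x hx).ne'
  obtain ⟨B, hB⟩ := h1.bounded c
  refine ⟨(max B 1)⁻¹, by positivity, fun x hx => ?_⟩
  have h2 := hB x hx
  have h3 := hpos x (ne_of_mem_Dom hx)
  rw [abs_of_pos (inv_pos.2 h3)] at h2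
  rw [inv_le_comm₀ (by positivity) h3]
  exact h2.trans (le_max_left _ _)

lemma open_cone (hc : 1 < c) (hw : LH c w) (hφ : HS c 0 φ) (hp : Ps w) :
    ∀ᶠ s in 𝓝 (0:ℝ), Ps (pert w φ s) := by
  have sm := hw.sm
  have s1 : Sm (fun x => Lap w x - Q w x / 2) := by
    have : Sm (fun x => Lap w x - (1 / 2) * Q w x) := sm.Lap.sub ((Sm.const _).mul sm.Q)
    refine ContDiffOn.congr this fun x hx => by ring
  obtain ⟨m, hm, hmb⟩ := lower_bound s1 hp c
  obtain ⟨B1, hB1⟩ := (hφ.sm.Lap.sub (sm.Dt hφ.sm)).bounded c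
  obtain ⟨B2, hB2⟩ := hφ.sm.Q.bounded c
  set B := max 1 (max B1 B2) with hB
  have hB0 : 1 ≤ B := le_max_left _ _
  have hB1' : B1 ≤ B := (le_max_left _ _).trans (le_max_right _ _)
  have hB2' : B2 ≤ B := (le_max_right _ _).trans (le_max_right _ _)
  have hmem : {s : ℝ | |s| < min 1 (m / (2 * B))} ∈ 𝓝 (0:ℝ) :=
    (isOpen_lt continuous_abs continuous_const).mem_nhds (by
      simp only [Set.mem_ofPred_eq, abs_zero]; positivity)
  filter_upwards [hmem] with s hs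
  have hs1 : |s| < 1 := lt_of_lt_of_le hs (min_le_left _ _)
  have hs2 : |s| < m / (2 * B) := lt_of_lt_of_le hs (min_le_right _ _)
  rw [lt_div_iff₀ (by positivity)] at hs2
  apply Ps_of_Dom hc (pert_LH hw hφ s)
  intro x hx
  have hx0 := ne_of_mem_Dom hx
  rw [Lap_pert sm hφ.sm s hx0, Q_pert sm hφ.sm s hx0]
  have a1 := hmb x hx
  have a2 := (hB1 x hx).trans hB1'
  have a3 := (hB2 x hx).trans hB2'
  have b1 : |s * (Lap φ x - Dt w φ x)| ≤ |s| * B := by rw [abs_mul]; gcongr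
  have b2 : |s ^ 2 * Q φ x| ≤ |s| * B := by
    rw [abs_mul, abs_pow]
    have : |s| ^ 2 ≤ |s| := by nlinarith [abs_nonneg s]
    gcongr
  have c1 := (abs_le.1 b1).1
  have c2 := (abs_le.1 b2).2
  have c3 : 0 ≤ |s| * B := by positivity
  have : 0 < m - |s| * B - |s| * B / 2 := by nlinarith
  linarith

/-! ### the second variation inequality for a maximiser -/

lemma NN_le_zero (hc : 1 < c) (hw : LH c w) (hp : Ps w)
    (hmax : ∀ w', LH c w' → Ps w' →
      Vf c w' * S2f c w' / S1f c w' ^ 2 ≤ Vf c w * S2f c w / S1f c w ^ 2)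
    (hφ : HS c 0 φ) :
    ∫ x in Dom c, NN (Vf c w) (S2f c w)
      (Vf c w * S2f c w / S1f c w ^ 2 * S1f c w) w φ x ≤ 0 := by
  have sm := hw.sm
  have sφ := hφ.sm
  set M := Vf c w * S2f c w / S1f c w ^ 2 with hM
  have hS1 := S1f_pos hc hw hp
  have hV := Vf_pos hc sm
  have hM0 : M ≤ 0 := by
    have := energy_bound hc hw hp
    have h2 : 0 < S1f c w ^ 2 := by positivity
    rw [hM]
    apply div_nonpos_of_nonpos_of_nonneg _ h2.le
    nlinarith
  have hneg : ∀ᶠ s in 𝓝 (0:ℝ), Vf c (pert w φ s) * S2f c (pert w φ s) ≤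
      M * S1f c (pert w φ s) ^ 2 := by
    filter_upwards [open_cone hc hw hφ hp] with s hs
    have h1 := hmax _ (pert_LH hw hφ s) hs
    have h2 := S1f_pos hc (pert_LH hw hφ s) hs
    rwa [div_le_iff₀ (by positivity)] at h1
  have e0 : (∫ x in Dom c, Real.exp (-3 * w x)) = Vf c w := rfl
  have e1 : (∫ x in Dom c, 1 / 2 * (Real.exp (-w x) * Q w x)) = S1f c w := by
    rw [integral_const_mul]; rfl
  have e2 : (∫ x in Dom c, -(1 / 4) * (Real.exp (w x) * (Q w x * Lap w x))) = S2f c w := by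
    rw [integral_const_mul]
    unfold S2f
    congr 2
    ext x; ring
  have hVe := Vf_expand (c := c) sm sφ
  have h1e := S1f_expand (c := c) sm sφ
  have h2e := S2f_expand (c := c) sm sφ
  rw [e0] at hVe
  rw [e1] at h1e
  rw [e2] at h2e
  have h0 : Vf c w * S2f c w = M * S1f c w ^ 2 := by
    rw [hM]; field_simp
  have key := second_var hVe h1e h2e hneg h0 hV hM0
  refine le_trans (le_of_eq ?_) key
  have q1 : Sm (fun x => (1 ^ 2 / 2 * φ x ^ 2 *
            (-(1 / 4) * (Real.exp (w x) * (Q w x * Lap w x)))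
          + 1 * φ x * (-(1 / 4) * (Real.exp (w x) * (2 * Dt w φ x * Lap w x + Q w x * Lap φ x)))
          + -(1 / 4) * (Real.exp (w x) * (Q φ x * Lap w x + 2 * Dt w φ x * Lap φ x)))) := by
    have sD := sm.Dt sφ
    have s0 : Sm (fun x => -(1 / 4) * (Real.exp (w x) * (Q w x * Lap w x))) :=
      (Sm.const _).mul (sm.exp.mul (sm.Q.mul sm.Lap))
    have s1 : Sm (fun x => -(1 / 4) * (Real.exp (w x) *
        (2 * Dt w φ x * Lap w x + Q w x * Lap φ x))) :=
      (Sm.const _).mul (sm.exp.mul ((((Sm.const 2).mul sD).mul sm.Lap).add (sm.Q.mul sφ.Lap)))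
    have s2 : Sm (fun x => -(1 / 4) * (Real.exp (w x) *
        (Q φ x * Lap w x + 2 * Dt w φ x * Lap φ x))) :=
      (Sm.const _).mul (sm.exp.mul ((sφ.Q.mul sm.Lap).add (((Sm.const 2).mul sD).mul sφ.Lap)))
    exact ((((Sm.const _).mul (sφ.pow 2)).mul s0).add (((Sm.const 1).mul sφ).mul s1)).add s2
  have q2 : Sm (fun x => ((-3) ^ 2 / 2 * φ x ^ 2 * Real.exp (-3 * w x)
          + -3 * φ x * 0 + 0)) :=
    ((((Sm.const _).mul (sφ.pow 2)).mul (exp3_sm sm)).add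
      (((Sm.const (-3)).mul sφ).mul (Sm.const 0))).add (Sm.const 0)
  have q3 : Sm (fun x => ((-1) ^ 2 / 2 * φ x ^ 2 * (1 / 2 * (Real.exp (-w x) * Q w x))
          + -1 * φ x * (Real.exp (-w x) * Dt w φ x)
          + 1 / 2 * (Real.exp (-w x) * Q φ x))) := by
    have s0 : Sm (fun x => 1 / 2 * (Real.exp (-w x) * Q w x)) :=
      (Sm.const _).mul (sm.neg.exp.mul sm.Q)
    have s1 : Sm (fun x => Real.exp (-w x) * Dt w φ x) := sm.neg.exp.mul (sm.Dt sφ)
    have s2 : Sm (fun x => 1 / 2 * (Real.exp (-w x) * Q φ x)) :=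
      (Sm.const _).mul (sm.neg.exp.mul sφ.Q)
    exact ((((Sm.const _).mul (sφ.pow 2)).mul s0).add (((Sm.const (-1)).mul sφ).mul s1)).add s2
  rw [← integral_const_mul, mul_comm (∫ x in Dom c, _) (S2f c w), ← integral_const_mul,
    ← integral_const_mul, ← integral_add ((Sm.const _).mul q1).intOn ((Sm.const _).mul q2).intOn,
    ← integral_sub (((Sm.const _).mul q1).add ((Sm.const _).mul q2)).intOn
      ((Sm.const _).mul q3).intOn]
  congr 1
  ext x
  unfold NN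
  ring

/-- **No maximiser.** -/
theorem no_max (hc : 1 < c) (hw : LH c w) (hp : Ps w)
    (hmax : ∀ w', LH c w' → Ps w' →
      Vf c w' * S2f c w' / S1f c w' ^ 2 ≤ Vf c w * S2f c w / S1f c w ^ 2) : False := by
  have hc0 : 0 < c := by linarith
  have sm := hw.sm
  have hS1 := S1f_pos hc hw hp
  have hV := Vf_pos hc sm
  set M := Vf c w * S2f c w / S1f c w ^ 2 with hM
  have h0 : Vf c w * S2f c w = M * S1f c w ^ 2 := by
    rw [hM]; field_simp
  have hM0 : M < 0 := by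
    have := energy_bound hc hw hp
    rw [h0] at this
    have h2 : 0 < S1f c w ^ 2 := by positivity
    nlinarith
  set K2 := ∫ x in Dom c, Real.exp (-w x) * nn x ^ 2 with hK2
  have hK2pos : 0 < K2 := by
    apply int_pos hc (sm.neg.exp.mul (nn_sm.pow 2))
    intro x hx
    have : 0 < nn x := inv_pos.2 (norm_pos_iff.2 (ne_of_mem_Dom hx))
    positivity
  have hK1 := int3 hc hw
  set K1 := ∫ x in Dom c, Real.exp (w x) * nn x ^ 2 * (Lap w x - Q w x) with hK1d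
  obtain ⟨t, ht⟩ : ∃ t : ℝ, 6 * S1f c w < K2 * t ^ 2 := by
    refine ⟨6 * S1f c w / K2 + 1, ?_⟩
    have h1 : K2 * (6 * S1f c w / K2) = 6 * S1f c w := by field_simp
    have h2 : 0 < 6 * S1f c w / K2 := by positivity
    nlinarith [mul_pos hK2pos h2]
  have hsum := NN_int_sum (c := c) (Vf c w) (S2f c w) (M * S1f c w) t sm
  have hle : ∑ i, ((∫ x in Dom c, NN (Vf c w) (S2f c w) (M * S1f c w) w (cs t i) x) +
      ∫ x in Dom c, NN (Vf c w) (S2f c w) (M * S1f c w) w (sn t i) x) ≤ 0 := by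
    apply Finset.sum_nonpos
    intro i _
    have a1 := NN_le_zero hc hw hp hmax (cs_HS (i := i) hc0 t)
    have a2 := NN_le_zero hc hw hp hmax (sn_HS (i := i) hc0 t)
    linarith
  rw [hsum] at hle
  have f1 : (∫ x in Dom c, Real.exp (w x) * Q w x * Lap w x) = -4 * S2f c w := by
    unfold S2f; ring
  have f2 : (∫ x in Dom c, Real.exp (-w x) * Q w x) = 2 * S1f c w := by
    unfold S1f; ring
  have f3 : (∫ x in Dom c, Real.exp (-3 * w x)) = Vf c w := rfl
  rw [f1, f2, f3] at hle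
  have g1 : 0 ≤ -(1 / 2) * Vf c w * t ^ 2 * K1 := by
    have : 0 ≤ Vf c w * t ^ 2 * (-K1) := by
      apply mul_nonneg (by positivity); linarith
    linarith
  have g2 : 12 * M * S1f c w ^ 2 - 2 * (M * S1f c w) * t ^ 2 * K2 ≤ 0 := by
    nlinarith [h0, g1, hle]
  have g3 : 0 < (-M) * S1f c w * (K2 * t ^ 2 - 6 * S1f c w) := by
    apply mul_pos (mul_pos (by linarith) hS1); linarith
  nlinarith

end Pool.Agent.helper65.Y
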