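import Pool.Agent.helper65.YInt

open MeasureTheory Filter
open scoped ContDiff Topology

namespace Pool.Agent.helper65.Y

variable {c : ℝ} {d e : ℤ} {f g h w : E3 → ℝ} {x : E3} {i j k : Fin 3}

lemma integrableOn_Dom (hh : ContinuousOn h {0}ᶜ) : IntegrableOn h (Dom c) := by
  have hK : IsCompact {x : E3 | 1 ≤ ‖x‖ ∧ ‖x‖ ≤ c} := by
    apply Metric.isCompact_of_isClosed_isBounded
    · exact (isClosed_le continuous_const continuous_norm).inter
        (isClosed_le continuous_norm continuous_const)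
    · apply (Metric.isBounded_closedBall (x := (0:E3)) (r := c)).subset
      intro x hx
      simpa using hx.2
  have hc : ContinuousOn h {x : E3 | 1 ≤ ‖x‖ ∧ ‖x‖ ≤ c} := by
    apply hh.mono
    rintro x ⟨h1, _⟩ rfl
    simp at h1; linarith
  exact (hc.integrableOn_compact hK).mono_set (fun x hx => ⟨hx.1, hx.2.le⟩)

lemma Sm.intOn (hh : Sm h) : IntegrableOn h (Dom c) := integrableOn_Dom hh.continuousOn

lemma ne_of_mem_Dom (hx : x ∈ Dom c) : x ≠ 0 := by
  rintro rfl
  have := hx.1
  simp at this; linarith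

lemma Sm.Q (hw : Sm w) : Sm (Q w) := Sm.sum fun i _ => (hw.pd i).pow 2
lemma Sm.Lap (hw : Sm w) : Sm (Lap w) := Sm.sum fun i _ => (hw.pd i).pd i
lemma Sm.HQ (hw : Sm w) : Sm (HQ w) :=
  Sm.sum fun i _ => Sm.sum fun j _ => (((hw.pd i).pd j).mul (hw.pd i)).mul (hw.pd j)
lemma Sm.H2 (hw : Sm w) : Sm (H2 w) :=
  Sm.sum fun i _ => Sm.sum fun j _ => ((hw.pd i).pd j).pow 2

/-- total divergence of a field of degree `-2` integrates to zero -/
lemma integral_div_eq_zero (hc : 1 < c) {X : Fin 3 → E3 → ℝ} (hX : ∀ i, HS c (-2) (X i)) :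
    ∫ x in Dom c, ∑ i, pd i (X i) x = 0 := by
  rw [integral_finsetSum]
  · exact Finset.sum_eq_zero fun i _ => integral_pd_eq_zero hc (hX i) i
  · intro i _
    exact ((hX i).sm.pd i).intOn

/-- `∫ e^{-w} (Δw - |∇w|²) = 0` -/
lemma int1 (hc : 1 < c) (hw : LH c w) :
    ∫ x in Dom c, Real.exp (-w x) * (Lap w x - Q w x) = 0 := by
  have hc0 : 0 < c := by linarith
  have hX : ∀ i : Fin 3, HS c (-2) (fun x => Real.exp (-w x) * pd i w x) := fun i =>
    ((hw.exp_neg hc0).mul hc0.ne' (hw.pd hc0 i)).congr (by norm_num)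
  rw [← integral_div_eq_zero hc hX]
  apply setIntegral_congr_fun Dom_meas
  intro x hx
  have hx0 := ne_of_mem_Dom hx
  have : ∀ i : Fin 3, pd i (fun x => Real.exp (-w x) * pd i w x) x =
      Real.exp (-w x) * (pd i (pd i w) x - pd i w x ^ 2) := by
    intro i
    rw [pd_mul hw.sm.neg.exp (hw.sm.pd i) hx0, pd_exp hw.sm.neg hx0, pd_neg]
    ring
  simp only [this, Lap, Q, ← Finset.mul_sum, Finset.sum_sub_distrib]

/-- reduced form of the first functional -/
lemma int1' (hc : 1 < c) (hw : LH c w) :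
    ∫ x in Dom c, Real.exp (-w x) * (Lap w x - Q w x / 2) =
      1 / 2 * ∫ x in Dom c, Real.exp (-w x) * Q w x := by
  have h1 : ∀ x, Real.exp (-w x) * (Lap w x - Q w x / 2) =
      Real.exp (-w x) * (Lap w x - Q w x) + 1 / 2 * (Real.exp (-w x) * Q w x) := by
    intro x; ring
  simp only [h1]
  rw [integral_add, int1 hc hw, zero_add, integral_const_mul]
  · exact (hw.sm.neg.exp.mul (hw.sm.Lap.sub hw.sm.Q)).intOn
  · exact ((Sm.const _).mul (hw.sm.neg.exp.mul hw.sm.Q)).intOn

lemma pd3 (hw : Sm w) (hx : x ≠ 0) (a b : Fin 3) :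
    pd a (pd b (pd b w)) x = pd b (pd b (pd a w)) x := by
  rw [pd_comm (hw.pd b) hx]
  exact pd_congr (fun y hy => pd_comm hw hy) hx

/-- reduced form of the second functional -/
lemma int2 (hc : 1 < c) (hw : LH c w) :
    ∫ x in Dom c, Real.exp (w x) / 2 * (Lap w x ^ 2 - H2 w x - 2 * HQ w x - Q w x ^ 2 / 2) =
      - (1 / 4) * ∫ x in Dom c, Real.exp (w x) * Q w x * Lap w x := by
  have hc0 : 0 < c := by linarith
  have hc' := hc0.ne'
  have hE := hw.exp hc0
  have hP := fun i => hw.pd hc0 i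
  have hPP : ∀ a b : Fin 3, HS c (-2) (pd a (pd b w)) := fun a b =>
    ((hP b).pd hc' a).congr (by norm_num)
  have hX : ∀ i : Fin 3, HS c (-2) (fun x => Real.exp (w x) *
      ((∑ j, (pd j (pd j w) x * pd i w x - pd i (pd j w) x * pd j w x))
        - 1 / 2 * ((∑ j, pd j w x * pd j w x) * pd i w x))) := by
    intro i
    have h1 : HS c (-3) (fun x => ∑ j,
        (pd j (pd j w) x * pd i w x - pd i (pd j w) x * pd j w x)) := by
      apply HS.sum
      intro j _
      exact (((hPP j j).mul hc' (hP i)).congr (by norm_num)).sub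
        (((hPP i j).mul hc' (hP j)).congr (by norm_num))
    have h2 : HS c (-3) (fun x => (∑ j, pd j w x * pd j w x) * pd i w x) := by
      have h3 : HS c (-2) (fun x => ∑ j, pd j w x * pd j w x) := by
        apply HS.sum
        intro j _
        exact ((hP j).mul hc' (hP j)).congr (by norm_num)
      exact (h3.mul hc' (hP i)).congr (by norm_num)
    exact (hE.mul hc' (h1.sub (h2.const_mul (1/2)))).congr (by norm_num)
  have key := integral_div_eq_zero hc hX
  have hpt : ∀ x ∈ Dom c, Real.exp (w x) / 2 *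
      (Lap w x ^ 2 - H2 w x - 2 * HQ w x - Q w x ^ 2 / 2) =
      - (1 / 4) * (Real.exp (w x) * Q w x * Lap w x) + 1 / 2 *
      ∑ i, pd i (fun x => Real.exp (w x) *
      ((∑ j, (pd j (pd j w) x * pd i w x - pd i (pd j w) x * pd j w x))
        - 1 / 2 * ((∑ j, pd j w x * pd j w x) * pd i w x))) x := by
    intro x hx
    have hx0 := ne_of_mem_Dom hx
    have s := hw.sm
    have e : ∀ i : Fin 3, pd i (fun x => Real.exp (w x) *
      ((∑ j, (pd j (pd j w) x * pd i w x - pd i (pd j w) x * pd j w x))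
        - 1 / 2 * ((∑ j, pd j w x * pd j w x) * pd i w x))) x =
      Real.exp (w x) * pd i w x * ((∑ j, (pd j (pd j w) x * pd i w x - pd i (pd j w) x * pd j w x))
        - 1 / 2 * ((∑ j, pd j w x * pd j w x) * pd i w x)) +
      Real.exp (w x) * ((∑ j, (pd i (pd j (pd j w)) x * pd i w x
          + pd j (pd j w) x * pd i (pd i w) x
          - (pd i (pd i (pd j w)) x * pd j w x + pd i (pd j w) x * pd i (pd j w) x)))
        - 1 / 2 * ((∑ j, (pd i (pd j w) x * pd j w x + pd j w x * pd i (pd j w) x)) * pd i w x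
          + (∑ j, pd j w x * pd j w x) * pd i (pd i w) x)) := by
      intro i
      have m1 : Sm (fun x => ∑ j, (pd j (pd j w) x * pd i w x - pd i (pd j w) x * pd j w x)) :=
        Sm.sum fun j _ => (((s.pd j).pd j).mul (s.pd i)).sub (((s.pd j).pd i).mul (s.pd j))
      have m2 : Sm (fun x => ∑ j, pd j w x * pd j w x) := Sm.sum fun j _ => (s.pd j).mul (s.pd j)
      rw [pd_mul s.exp (m1.sub ((Sm.const _).mul (m2.mul (s.pd i)))) hx0, pd_exp s hx0,
        pd_sub m1 ((Sm.const _).mul (m2.mul (s.pd i))) hx0,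
        pd_const_mul _ (m2.mul (s.pd i)) hx0, pd_mul m2 (s.pd i) hx0,
        pd_sum (fun j _ => (((s.pd j).pd j).mul (s.pd i)).sub (((s.pd j).pd i).mul (s.pd j))) hx0,
        pd_sum (fun j _ => (s.pd j).mul (s.pd j)) hx0]
      have q1 : ∀ j : Fin 3, pd i (fun x => pd j (pd j w) x * pd i w x
          - pd i (pd j w) x * pd j w x) x = pd i (pd j (pd j w)) x * pd i w x
          + pd j (pd j w) x * pd i (pd i w) x
          - (pd i (pd i (pd j w)) x * pd j w x + pd i (pd j w) x * pd i (pd j w) x) := by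
        intro j
        rw [pd_sub (((s.pd j).pd j).mul (s.pd i)) (((s.pd j).pd i).mul (s.pd j)) hx0,
          pd_mul ((s.pd j).pd j) (s.pd i) hx0, pd_mul ((s.pd j).pd i) (s.pd j) hx0]
      have q2 : ∀ j : Fin 3, pd i (fun x => pd j w x * pd j w x) x =
          pd i (pd j w) x * pd j w x + pd j w x * pd i (pd j w) x := by
        intro j
        rw [pd_mul (s.pd j) (s.pd j) hx0]
      simp only [q1, q2]
    simp only [e]
    have c10 := pd_comm (i := 1) (j := 0) s hx0
    have c20 := pd_comm (i := 2) (j := 0) s hx0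
    have c21 := pd_comm (i := 2) (j := 1) s hx0
    have t01 := pd3 s hx0 0 1
    have t02 := pd3 s hx0 0 2
    have t12 := pd3 s hx0 1 2
    have t10 := pd3 s hx0 1 0
    have t20 := pd3 s hx0 2 0
    have t21 := pd3 s hx0 2 1
    simp only [H2, HQ, Lap, Q, Fin.sum_univ_three, c10, c20, c21, t01, t02, t12, t10, t20, t21]
    ring
  rw [setIntegral_congr_fun Dom_meas hpt, integral_add, integral_const_mul, integral_const_mul,
    key, mul_zero, add_zero]
  · exact ((Sm.const _).mul ((hw.sm.exp.mul hw.sm.Q).mul hw.sm.Lap)).intOn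
  · exact ((Sm.const _).mul (Sm.sum fun i _ => (hX i).sm.pd i)).intOn

end Pool.Agent.helper65.Y
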