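import Pool.Agent.helper65.YMetric

open MeasureTheory Filter
open scoped ContDiff Topology Pointwise

namespace Pool.Agent.helper65.Y

/-- smooth away from the origin and homogeneous of degree `d` under the dilation by `c` -/
structure HS (c : ℝ) (d : ℤ) (f : E3 → ℝ) : Prop where
  sm : Sm f
  hom : ∀ x, x ≠ 0 → f (c • x) = c ^ d * f x

variable {c : ℝ} {d e : ℤ} {f g h : E3 → ℝ} {x : E3} {i j k : Fin 3}

lemma HS.mul (hc : c ≠ 0) (hf : HS c d f) (hg : HS c e g) : HS c (d + e) (fun x => f x * g x) :=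
  ⟨hf.sm.mul hg.sm, fun x hx => by
    simp only [hf.hom x hx, hg.hom x hx, zpow_add₀ hc]; ring⟩

lemma HS.add (hf : HS c d f) (hg : HS c d g) : HS c d (fun x => f x + g x) :=
  ⟨hf.sm.add hg.sm, fun x hx => by simp only [hf.hom x hx, hg.hom x hx]; ring⟩

lemma HS.sub (hf : HS c d f) (hg : HS c d g) : HS c d (fun x => f x - g x) :=
  ⟨hf.sm.sub hg.sm, fun x hx => by simp only [hf.hom x hx, hg.hom x hx]; ring⟩

lemma HS.const (a : ℝ) : HS c 0 (fun _ => a) :=
  ⟨Sm.const a, fun x hx => by simp⟩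

lemma HS.const_mul (a : ℝ) (hf : HS c d f) : HS c d (fun x => a * f x) :=
  ⟨(Sm.const a).mul hf.sm, fun x hx => by simp only [hf.hom x hx]; ring⟩

lemma HS.sum {s : Finset (Fin 3)} {F : Fin 3 → E3 → ℝ} (h : ∀ i ∈ s, HS c d (F i)) :
    HS c d (fun x => ∑ i ∈ s, F i x) :=
  ⟨Sm.sum fun i hi => (h i hi).sm, fun x hx => by
    rw [Finset.mul_sum]; exact Finset.sum_congr rfl fun i hi => (h i hi).hom x hx⟩

lemma HS.congr (hf : HS c d f) (hd : d = e) : HS c e f := hd ▸ hf

lemma smul_ne (hc : c ≠ 0) (hx : x ≠ 0) : c • x ≠ 0 := smul_ne_zero hc hx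

lemma pd_comp_smul (hc : c ≠ 0) (hf : Sm f) (hx : x ≠ 0) :
    pd i (fun y => f (c • y)) x = c * pd i f (c • x) := by
  have h1 : HasFDerivAt (fun y : E3 => c • y) (c • ContinuousLinearMap.id ℝ E3) x :=
    (hasFDerivAt_id x).const_smul c
  have h2 := ((hf.diff (smul_ne hc hx)).hasFDerivAt).comp x h1
  unfold pd
  rw [show (fun y => f (c • y)) = f ∘ (fun y : E3 => c • y) from rfl, h2.fderiv]
  simp

lemma Sm.comp_smul (hc : c ≠ 0) (hf : Sm f) : Sm (fun y => f (c • y)) := by
  apply ContDiffOn.comp hf (t := {0}ᶜ)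
  · apply ContDiff.contDiffOn
    fun_prop
  · intro y hy
    exact smul_ne hc hy

lemma HS.pd (hc : c ≠ 0) (hf : HS c d f) (i : Fin 3) : HS c (d - 1) (pd i f) := by
  refine ⟨hf.sm.pd i, fun x hx => ?_⟩
  have h1 : Y.pd i (fun y => f (c • y)) x = Y.pd i (fun y => c ^ d * f y) x :=
    pd_congr (fun y hy => hf.hom y hy) hx
  rw [pd_comp_smul hc hf.sm hx, pd_const_mul _ hf.sm hx] at h1
  rw [zpow_sub₀ hc, zpow_one]
  field_simp
  linarith

/-- the log-homogeneous potentials -/
structure LH (c : ℝ) (w : E3 → ℝ) : Prop where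
  sm : Sm w
  hom : ∀ x, x ≠ 0 → w (c • x) = w x + Real.log c

lemma LH.pd (hc : 0 < c) {w : E3 → ℝ} (hw : LH c w) (i : Fin 3) : HS c (-1) (pd i w) := by
  have hc' : c ≠ 0 := hc.ne'
  refine ⟨hw.sm.pd i, fun x hx => ?_⟩
  have h1 : Y.pd i (fun y => w (c • y)) x = Y.pd i (fun y => w y + Real.log c) x :=
    pd_congr (fun y hy => hw.hom y hy) hx
  rw [pd_comp_smul hc' hw.sm hx, pd_add hw.sm (Sm.const _) hx, pd_const] at h1
  rw [zpow_neg_one]
  field_simp
  linarith

lemma LH.exp (hc : 0 < c) {w : E3 → ℝ} (hw : LH c w) : HS c 1 (fun x => Real.exp (w x)) :=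
  ⟨hw.sm.exp, fun x hx => by
    simp only [hw.hom x hx, Real.exp_add, Real.exp_log hc, zpow_one]; ring⟩

lemma LH.exp_neg (hc : 0 < c) {w : E3 → ℝ} (hw : LH c w) :
    HS c (-1) (fun x => Real.exp (-w x)) :=
  ⟨hw.sm.neg.exp, fun x hx => by
    simp only [hw.hom x hx, neg_add, Real.exp_add, Real.exp_neg (Real.log c), Real.exp_log hc,
      zpow_neg_one]; ring⟩

lemma HS.norm (hc : 0 < c) : HS c 1 (fun x => ‖x‖) :=
  ⟨Sm.norm, fun x hx => by rw [norm_smul, Real.norm_of_nonneg hc.le, zpow_one]⟩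

lemma HS.coord (i : Fin 3) : HS c 1 (fun x => x i) :=
  ⟨Sm.coord i, fun x hx => by simp⟩

lemma HS.inv (hf : HS c d f) (h0 : ∀ x, x ≠ 0 → f x ≠ 0) : HS c (-d) (fun x => (f x)⁻¹) :=
  ⟨hf.sm.inv h0, fun x hx => by simp only [hf.hom x hx, mul_inv, zpow_neg]⟩

lemma HS.neg (hf : HS c d f) : HS c d (fun x => - f x) :=
  ⟨hf.sm.neg, fun x hx => by simp only [hf.hom x hx]; ring⟩

/-! ### the cutoff -/

noncomputable def eta (c : ℝ) (x : E3) : ℝ := Real.smoothTransition ((‖x‖ - 1) / ((c - 1) / 2))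

lemma eta_zero (hc : 1 < c) (hx : ‖x‖ ≤ 1) : eta c x = 0 :=
  Real.smoothTransition.zero_of_nonpos
    (div_nonpos_of_nonpos_of_nonneg (by linarith) (by linarith))

lemma eta_one (hc : 1 < c) (hx : (1 + c) / 2 ≤ ‖x‖) : eta c x = 1 :=
  Real.smoothTransition.one_of_one_le ((one_le_div (by linarith)).2 (by linarith))

lemma eta_sm : Sm (eta c) := by
  have h : Sm (fun x : E3 => (‖x‖ - 1) / ((c - 1) / 2)) := by
    have := (Sm.norm.sub (Sm.const 1)).mul (Sm.const ((c - 1) / 2)⁻¹)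
    simpa [div_eq_mul_inv] using this
  exact (Real.smoothTransition.contDiff (n := ⊤)).comp_contDiffOn h

lemma eta_ev_zero (hc : 1 < c) (hx : ‖x‖ < 1) : eta c =ᶠ[𝓝 x] fun _ => 0 := by
  have : {y : E3 | ‖y‖ < 1} ∈ 𝓝 x := (isOpen_lt continuous_norm continuous_const).mem_nhds hx
  filter_upwards [this] with y hy
  exact eta_zero hc (le_of_lt hy)

lemma eta_ev_one (hc : 1 < c) (hx : (1 + c) / 2 < ‖x‖) : eta c =ᶠ[𝓝 x] fun _ => 1 := by
  have : {y : E3 | (1 + c) / 2 < ‖y‖} ∈ 𝓝 x :=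
    (isOpen_lt continuous_const continuous_norm).mem_nhds hx
  filter_upwards [this] with y hy
  exact eta_one hc (le_of_lt hy)

lemma pd_eta_zero (hc : 1 < c) (hx : ‖x‖ < 1) : pd i (eta c) x = 0 := by
  rw [pd_congr_nhds (eta_ev_zero hc hx), pd_const]

lemma pd_eta_one (hc : 1 < c) (hx : (1 + c) / 2 < ‖x‖) : pd i (eta c) x = 0 := by
  rw [pd_congr_nhds (eta_ev_one hc hx), pd_const]

noncomputable def chi (c : ℝ) (x : E3) : ℝ := eta c x - eta c (c⁻¹ • x)

lemma chi_sm (hc : 1 < c) : Sm (chi c) := by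
  have h0 : c⁻¹ ≠ 0 := by positivity
  exact eta_sm.sub (eta_sm.comp_smul h0)

lemma norm_inv_smul (hc : 1 < c) : ‖c⁻¹ • x‖ = ‖x‖ / c := by
  rw [norm_smul, norm_inv, Real.norm_of_nonneg (by linarith : (0:ℝ) ≤ c)]
  ring

lemma pd_chi (hc : 1 < c) (hx : x ≠ 0) :
    pd i (chi c) x = pd i (eta c) x - c⁻¹ * pd i (eta c) (c⁻¹ • x) := by
  have h0 : c⁻¹ ≠ 0 := by positivity
  unfold chi
  rw [pd_sub eta_sm (eta_sm.comp_smul h0) hx, pd_comp_smul h0 eta_sm hx]

lemma chi_ev_zero_in (hc : 1 < c) (hx : ‖x‖ < 1) : chi c =ᶠ[𝓝 x] fun _ => 0 := by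
  have : {y : E3 | ‖y‖ < 1} ∈ 𝓝 x := (isOpen_lt continuous_norm continuous_const).mem_nhds hx
  filter_upwards [this] with y hy
  unfold chi
  rw [eta_zero hc (le_of_lt hy), eta_zero hc, sub_zero]
  rw [norm_inv_smul hc, div_le_one (by linarith)]
  linarith [show ‖y‖ < 1 from hy]

lemma chi_zero_out (hc : 1 < c) (hx : c ^ 2 ≤ ‖x‖) : chi c x = 0 := by
  have hc2 : (1 + c) / 2 ≤ c ^ 2 := by nlinarith
  unfold chi
  rw [eta_one hc (hc2.trans hx), eta_one hc, sub_self]
  rw [norm_inv_smul hc, le_div_iff₀ (by linarith)]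
  nlinarith

lemma pd_chi_zero_out (hc : 1 < c) (hx : c ^ 2 ≤ ‖x‖) : pd i (chi c) x = 0 := by
  have hx0 : x ≠ 0 := by
    rintro rfl
    simp at hx; nlinarith
  have hc2 : (1 + c) / 2 < c ^ 2 := by nlinarith
  rw [pd_chi hc hx0, pd_eta_one hc (hc2.trans_le hx), pd_eta_one hc, mul_zero, sub_zero]
  rw [norm_inv_smul hc, lt_div_iff₀ (by linarith)]
  nlinarith

lemma integrable_of_supp {R : ℝ} (hh : ContinuousOn h {0}ᶜ) (h0 : ∀ x, ‖x‖ < 1 → h x = 0)
    (h1 : ∀ x, R ≤ ‖x‖ → h x = 0) : Integrable h := by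
  have hcont : Continuous h := by
    rw [continuous_iff_continuousAt]
    intro x
    by_cases hx : x = 0
    · have : h =ᶠ[𝓝 x] fun _ => 0 := by
        have : {y : E3 | ‖y‖ < 1} ∈ 𝓝 x :=
          (isOpen_lt continuous_norm continuous_const).mem_nhds (by simp [hx])
        filter_upwards [this] with y hy using h0 y hy
      exact continuousAt_const.congr this.symm
    · exact hh.continuousAt (mem_nhds_ne hx)
  apply hcont.integrable_of_hasCompactSupport
  apply HasCompactSupport.of_support_subset_isCompact (isCompact_closedBall (0 : E3) R)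
  intro x hx
  rw [Function.mem_support] at hx
  rw [mem_closedBall_zero_iff]
  by_contra hlt
  exact hx (h1 x (not_le.1 hlt).le)

lemma Dom_meas : MeasurableSet (Dom c) :=
  (measurableSet_le measurable_const measurable_norm).inter
    (measurableSet_lt measurable_norm measurable_const)

lemma smul_Dom (hc : 1 < c) : c • Dom c = {x : E3 | c ≤ ‖x‖ ∧ ‖x‖ < c ^ 2} := by
  have h0 : (0:ℝ) < c := by linarith
  ext x
  rw [Set.mem_smul_set_iff_inv_smul_mem₀ h0.ne']
  simp only [Dom, Set.mem_ofPred_eq, norm_inv_smul hc, le_div_iff₀ h0, div_lt_iff₀ h0]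
  constructor <;> rintro ⟨h1, h2⟩ <;> constructor <;> nlinarith

/-- integral over the dilated shell -/
lemma integral_smul_Dom (hc : 1 < c) (F : E3 → ℝ) :
    ∫ x in c • Dom c, F x = ∫ y in Dom c, c ^ 3 * F (c • y) := by
  have h0 : (0:ℝ) < c := by linarith
  have := Measure.setIntegral_comp_smul_of_pos volume F (Dom c) h0
  rw [finrank_euclideanSpace_fin] at this
  rw [integral_const_mul, this, smul_eq_mul, ← mul_assoc, mul_inv_cancel₀ (by positivity), one_mul]

lemma split_integral (hc : 1 < c) {F : E3 → ℝ} (hF : Integrable F)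
    (h0 : ∀ x, ‖x‖ < 1 → F x = 0) (h1 : ∀ x, c ^ 2 ≤ ‖x‖ → F x = 0) :
    ∫ x, F x = ∫ y in Dom c, (F y + c ^ 3 * F (c • y)) := by
  have hc0 : (0:ℝ) < c := by linarith
  have hm : MeasurableSet (c • Dom c) := Dom_meas.const_smul₀ c
  have hd : Disjoint (Dom c) (c • Dom c) := by
    rw [smul_Dom hc, Set.disjoint_left]
    rintro x ⟨_, h2⟩ ⟨h3, _⟩
    linarith
  have hu : ∀ x, x ∉ Dom c ∪ c • Dom c → F x = 0 := by
    intro x hx
    rw [smul_Dom hc] at hx
    simp only [Dom, Set.mem_union, Set.mem_ofPred_eq, not_or, not_and, not_lt] at hx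
    by_cases ha : ‖x‖ < 1
    · exact h0 x ha
    · have h2 := hx.1 (not_lt.1 ha)
      exact h1 x (hx.2 h2)
  rw [← setIntegral_eq_integral_of_forall_compl_eq_zero hu,
    setIntegral_union hd hm hF.integrableOn hF.integrableOn, integral_smul_Dom hc,
    ← integral_add hF.integrableOn]
  have h3 : IntegrableOn F (c • Dom c) := hF.integrableOn
  have h4 : Integrable (fun y => F (c • y)) := hF.comp_smul hc0.ne'
  exact (h4.const_mul _).integrableOn

/-- **Divergence theorem on the closed manifold**: if `f` has degree `-2`, the integral of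
`∂_i f` over a fundamental domain vanishes. -/
lemma integral_pd_eq_zero (hc : 1 < c) (hf : HS c (-2) f) (i : Fin 3) :
    ∫ x in Dom c, pd i f x = 0 := by
  have hc0 : (0:ℝ) < c := by linarith
  have hc' : c ≠ 0 := hc0.ne'
  have hχ := chi_sm hc
  have hχ0 : ∀ x : E3, ‖x‖ < 1 → chi c x = 0 := fun x hx => (chi_ev_zero_in hc hx).eq_of_nhds
  have hdχ0 : ∀ x : E3, ‖x‖ < 1 → pd i (chi c) x = 0 := fun x hx => by
    rw [pd_congr_nhds (chi_ev_zero_in hc hx), pd_const]
  have I1 : Integrable (fun x => pd i (chi c) x * f x) :=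
    integrable_of_supp (R := c ^ 2) ((hχ.pd i).mul hf.sm).continuousOn
      (fun x hx => by simp only [hdχ0 x hx, zero_mul])
      (fun x hx => by simp only [pd_chi_zero_out hc hx, zero_mul])
  have I2 : Integrable (fun x => chi c x * pd i f x) :=
    integrable_of_supp (R := c ^ 2) (hχ.mul (hf.sm.pd i)).continuousOn
      (fun x hx => by simp only [hχ0 x hx, zero_mul])
      (fun x hx => by simp only [chi_zero_out hc hx, zero_mul])
  have I3 : Integrable (fun x => chi c x * f x) :=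
    integrable_of_supp (R := c ^ 2) (hχ.mul hf.sm).continuousOn
      (fun x hx => by simp only [hχ0 x hx, zero_mul])
      (fun x hx => by simp only [chi_zero_out hc hx, zero_mul])
  have key : ∫ x, chi c x * pd i f x = - ∫ x, pd i (chi c) x * f x := by
    apply integral_mul_fderiv_eq_neg_fderiv_mul_of_integrable I1 I2 I3
    · intro x _
      by_cases hx : x = 0
      · have := chi_ev_zero_in (x := x) hc (by simp [hx])
        exact (differentiableAt_const (0:ℝ)).congr_of_eventuallyEq this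
      · exact hχ.diff hx
    · intro x hx
      have hx0 : x ≠ 0 := by
        rintro rfl
        exact (notMem_tsupport_iff_eventuallyEq.2 (chi_ev_zero_in (x := 0) hc (by simp))) hx
      exact hf.sm.diff hx0
  rw [split_integral hc I2 (fun x hx => by simp only [hχ0 x hx, zero_mul])
      (fun x hx => by simp only [chi_zero_out hc hx, zero_mul]),
    split_integral hc I1 (fun x hx => by simp only [hdχ0 x hx, zero_mul])
      (fun x hx => by simp only [pd_chi_zero_out hc hx, zero_mul])] at key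
  have hD0 : ∀ y ∈ Dom c, y ≠ 0 := by
    rintro y ⟨h1, _⟩ rfl
    simp at h1; linarith
  have e1 : ∫ y in Dom c, (chi c y * pd i f y + c ^ 3 * (chi c (c • y) * pd i f (c • y))) =
      ∫ y in Dom c, pd i f y := by
    apply setIntegral_congr_fun Dom_meas
    intro y hy
    have hy0 := hD0 y hy
    have hh := (hf.pd hc' i).hom y hy0
    have hz : c ^ (3:ℕ) * c ^ (-2 - 1 : ℤ) = 1 := by
      rw [← zpow_natCast, ← zpow_add₀ hc']; norm_num
    have ha : eta c (c⁻¹ • y) = 0 := by
      apply eta_zero hc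
      rw [norm_inv_smul hc, div_le_one hc0]
      exact hy.2.le
    have hb : eta c (c • y) = 1 := by
      apply eta_one hc
      rw [norm_smul, Real.norm_of_nonneg hc0.le]
      nlinarith [hy.1]
    simp only [chi, smul_smul, inv_mul_cancel₀ hc', one_smul, ha, hb, hh]
    linear_combination ((1 - eta c y) * pd i f y) * hz
  have e2 : ∫ y in Dom c, (pd i (chi c) y * f y + c ^ 3 * (pd i (chi c) (c • y) * f (c • y))) =
      0 := by
    have h0 : ∫ y in Dom c, (0:ℝ) = 0 := by simp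
    rw [← h0]
    apply setIntegral_congr_fun Dom_meas
    intro y hy
    have hy0 := hD0 y hy
    have hh := hf.hom y hy0
    have hz : c ^ (3:ℕ) * c ^ (-2 : ℤ) * c⁻¹ = 1 := by
      rw [← zpow_natCast, ← zpow_neg_one, ← zpow_add₀ hc', ← zpow_add₀ hc']; norm_num
    have ha : pd i (eta c) (c⁻¹ • y) = 0 := by
      apply pd_eta_zero hc
      rw [norm_inv_smul hc, div_lt_one hc0]
      exact hy.2
    have hb : pd i (eta c) (c • y) = 0 := by
      apply pd_eta_one hc
      rw [norm_smul, Real.norm_of_nonneg hc0.le]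
      nlinarith [hy.1]
    simp only [pd_chi hc hy0, pd_chi hc (smul_ne hc' hy0), smul_smul, inv_mul_cancel₀ hc',
      one_smul, ha, hb, hh]
    linear_combination (- pd i (eta c) y * f y) * hz
  rw [e1, e2, neg_zero] at key
  exact key

end Pool.Agent.helper65.Y
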