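import Pool.Agent.helper65.YFun

open MeasureTheory Filter
open scoped ContDiff Topology

namespace Pool.Agent.helper65.Y

variable {c : ℝ} {d e : ℤ} {f g h w : E3 → ℝ} {x : E3} {i j k : Fin 3}

lemma norm_mul_self_eq (x : E3) : ‖x‖ * ‖x‖ = x 0 * x 0 + x 1 * x 1 + x 2 * x 2 := by
  have := EuclideanSpace.norm_sq_eq x
  rw [Fin.sum_univ_three] at this
  simp only [Real.norm_eq_abs, sq_abs] at this
  nlinarith

/-- the function `1/‖x‖` -/
noncomputable def nn (x : E3) : ℝ := ‖x‖⁻¹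

lemma nn_sm : Sm nn := Sm.norm.inv fun x hx => norm_ne_zero_iff.2 hx

lemma nn_HS (hc : 0 < c) : HS c (-1) nn :=
  ⟨nn_sm, fun x hx => by
    unfold nn
    rw [norm_smul, Real.norm_of_nonneg hc.le, mul_inv, zpow_neg_one]⟩

lemma pd_norm (hx : x ≠ 0) : pd i (fun y => ‖y‖) x = x i * nn x := by
  have h1 : pd i (fun y => ‖y‖ * ‖y‖) x = pd i (fun y => y 0 * y 0 + y 1 * y 1 + y 2 * y 2) x := by
    congr 1; ext y; exact norm_mul_self_eq y
  have hn : ‖x‖ ≠ 0 := norm_ne_zero_iff.2 hx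
  have c0 := Sm.coord 0
  have c1 := Sm.coord 1
  have c2 := Sm.coord 2
  rw [pd_mul Sm.norm Sm.norm hx, pd_add ((c0.mul c0).add (c1.mul c1)) (c2.mul c2) hx,
    pd_add (c0.mul c0) (c1.mul c1) hx, pd_mul c0 c0 hx, pd_mul c1 c1 hx, pd_mul c2 c2 hx] at h1
  simp only [pd_coord] at h1
  unfold nn
  field_simp
  fin_cases i <;> simp at h1 ⊢ <;> linarith

lemma nn_mul_norm (hx : x ≠ 0) : nn x * ‖x‖ = 1 := by
  unfold nn
  exact inv_mul_cancel₀ (norm_ne_zero_iff.2 hx)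

lemma pd_nn (hx : x ≠ 0) : pd i nn x = - x i * nn x ^ 3 := by
  have h1 : pd i (fun y => nn y * ‖y‖) x = pd i (fun _ => (1:ℝ)) x :=
    pd_congr (fun y hy => nn_mul_norm hy) hx
  rw [pd_mul nn_sm Sm.norm hx, pd_const, pd_norm hx] at h1
  have hn := nn_mul_norm hx
  linear_combination nn x * h1 - pd i nn x * hn

lemma nn_sq (hx : x ≠ 0) : nn x ^ 2 * (x 0 ^ 2 + x 1 ^ 2 + x 2 ^ 2) = 1 := by
  have h1 := nn_mul_norm hx
  have h2 := norm_mul_self_eq x
  linear_combination (nn x * ‖x‖ + 1) * h1 - nn x ^ 2 * h2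

/-- the coordinate functions of `S²` pulled back to the cover -/
noncomputable def xi (i : Fin 3) (x : E3) : ℝ := x i * nn x

lemma xi_sm : Sm (xi i) := (Sm.coord i).mul nn_sm

lemma xi_HS (hc : 0 < c) : HS c 0 (xi i) :=
  ((HS.coord i).mul hc.ne' (nn_HS hc)).congr (by norm_num)

lemma pd_xi (hx : x ≠ 0) (a i : Fin 3) :
    pd a (xi i) x = (if a = i then 1 else 0) * nn x - x i * x a * nn x ^ 3 := by
  unfold xi
  rw [pd_mul (Sm.coord i) nn_sm hx, pd_coord, pd_nn hx]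
  ring

lemma pd_pd_xi (hx : x ≠ 0) (a i : Fin 3) :
    pd a (pd a (xi i)) x = - 2 * (if a = i then 1 else 0) * x a * nn x ^ 3 - x i * nn x ^ 3
      + 3 * x i * x a ^ 2 * nn x ^ 5 := by
  have h1 : pd a (pd a (xi i)) x = pd a (fun x => (if a = i then 1 else 0) * nn x
      - x i * x a * (nn x * nn x * nn x)) x :=
    pd_congr (fun y hy => by rw [pd_xi hy]; ring) hx
  have ci := Sm.coord i
  have ca := Sm.coord a
  rw [h1, pd_sub ((Sm.const _).mul nn_sm) ((ci.mul ca).mul ((nn_sm.mul nn_sm).mul nn_sm)) hx,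
    pd_const_mul _ nn_sm hx, pd_mul (ci.mul ca) ((nn_sm.mul nn_sm).mul nn_sm) hx,
    pd_mul ci ca hx, pd_mul (nn_sm.mul nn_sm) nn_sm hx, pd_mul nn_sm nn_sm hx,
    pd_nn hx, pd_coord, pd_coord]
  simp only [if_true]
  by_cases hai : a = i
  · subst hai; simp; ring
  · simp [hai]; ring

lemma Lap_xi (hx : x ≠ 0) (i : Fin 3) : Lap (xi i) x = -2 * x i * nn x ^ 3 := by
  have h := nn_sq hx
  simp only [Lap, pd_pd_xi hx, Fin.sum_univ_three]
  fin_cases i <;> simp <;> linear_combination (3 * nn x ^ 3 * x _) * h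

/-- `Dt u v = ⟨∇u, ∇v⟩` -/
noncomputable def Dt (u v : E3 → ℝ) (x : E3) : ℝ := ∑ a, pd a u x * pd a v x

lemma sum_Q_xi (hx : x ≠ 0) : ∑ i, Q (xi i) x = 2 * nn x ^ 2 := by
  have h := nn_sq hx
  simp only [Q, pd_xi hx, Fin.sum_univ_three]
  simp
  linear_combination (nn x ^ 4 * (x 0 ^ 2 + x 1 ^ 2 + x 2 ^ 2) - nn x ^ 2) * h

lemma sum_Dt_xi (hx : x ≠ 0) : ∑ i, Dt w (xi i) x * Lap (xi i) x = 0 := by
  have h := nn_sq hx
  simp only [Dt, Lap_xi hx, pd_xi hx, Fin.sum_univ_three]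
  simp
  linear_combination (2 * nn x ^ 4 * (pd 0 w x * x 0 + pd 1 w x * x 1 + pd 2 w x * x 2)) * h

/-- positivity of the leading coefficient -/
lemma int3 (hc : 1 < c) (hw : LH c w) :
    ∫ x in Dom c, Real.exp (w x) * nn x ^ 2 * (Lap w x - Q w x) ≤ 0 := by
  have hc0 : 0 < c := by linarith
  have hc' := hc0.ne'
  have hE := hw.exp hc0
  have hP := fun i => hw.pd hc0 i
  have hn := nn_HS hc0
  have s := hw.sm
  have hX : ∀ i : Fin 3, HS c (-2) (fun x => Real.exp (w x) * (nn x * nn x) * pd i w x) := by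
    intro i
    exact ((hE.mul hc' (hn.mul hc' hn)).mul hc' (hP i)).congr (by norm_num)
  have hY : ∀ i : Fin 3, HS c (-2)
      (fun x => Real.exp (w x) * ((nn x * nn x) * (nn x * nn x)) * x i) := by
    intro i
    exact ((hE.mul hc' ((hn.mul hc' hn).mul hc' (hn.mul hc' hn))).mul hc'
      (HS.coord i)).congr (by norm_num)
  have k1 := integral_div_eq_zero hc hX
  have k2 := integral_div_eq_zero hc hY
  have hpt : ∀ x ∈ Dom c, Real.exp (w x) * nn x ^ 2 * (Lap w x - Q w x) =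
      (∑ i, pd i (fun x => Real.exp (w x) * (nn x * nn x) * pd i w x) x)
      - 2 * (∑ i, pd i (fun x => Real.exp (w x) * ((nn x * nn x) * (nn x * nn x)) * x i) x)
      - 2 * (Real.exp (w x) * nn x ^ 2 * ∑ i, (pd i w x - nn x ^ 2 * x i) ^ 2) := by
    intro x hx
    have hx0 := ne_of_mem_Dom hx
    have e1 : ∀ i : Fin 3, pd i (fun x => Real.exp (w x) * (nn x * nn x) * pd i w x) x =
        Real.exp (w x) * (pd i w x ^ 2 * nn x ^ 2 - 2 * x i * nn x ^ 4 * pd i w x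
          + nn x ^ 2 * pd i (pd i w) x) := by
      intro i
      rw [pd_mul (s.exp.mul (nn_sm.mul nn_sm)) (s.pd i) hx0,
        pd_mul s.exp (nn_sm.mul nn_sm) hx0, pd_mul nn_sm nn_sm hx0, pd_exp s hx0, pd_nn hx0]
      ring
    have e2 : ∀ i : Fin 3,
        pd i (fun x => Real.exp (w x) * ((nn x * nn x) * (nn x * nn x)) * x i) x =
        Real.exp (w x) * (pd i w x * nn x ^ 4 * x i - 4 * nn x ^ 6 * x i ^ 2 + nn x ^ 4) := by
      intro i
      rw [pd_mul (s.exp.mul ((nn_sm.mul nn_sm).mul (nn_sm.mul nn_sm))) (Sm.coord i) hx0,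
        pd_mul s.exp ((nn_sm.mul nn_sm).mul (nn_sm.mul nn_sm)) hx0,
        pd_mul (nn_sm.mul nn_sm) (nn_sm.mul nn_sm) hx0,
        pd_mul nn_sm nn_sm hx0, pd_exp s hx0, pd_nn hx0, pd_coord]
      simp only [if_true]
      ring
    simp only [e1, e2, Lap, Q, Fin.sum_univ_three]
    have h := nn_sq hx0
    linear_combination (-6 * Real.exp (w x) * nn x ^ 4) * h
  rw [setIntegral_congr_fun Dom_meas hpt, integral_sub, integral_sub, integral_const_mul,
    integral_const_mul, k1, k2]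
  · have : 0 ≤ ∫ x in Dom c, Real.exp (w x) * nn x ^ 2 * ∑ i, (pd i w x - nn x ^ 2 * x i) ^ 2 := by
      apply integral_nonneg
      intro x
      positivity
    linarith
  · exact (Sm.sum fun i _ => (hX i).sm.pd i).intOn
  · exact ((Sm.const _).mul (Sm.sum fun i _ => (hY i).sm.pd i)).intOn
  · exact ((Sm.sum fun i _ => (hX i).sm.pd i).sub
      ((Sm.const _).mul (Sm.sum fun i _ => (hY i).sm.pd i))).intOn
  · exact ((Sm.const _).mul ((s.exp.mul (nn_sm.pow 2)).mul (Sm.sum fun i _ =>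
      ((s.pd i).sub ((nn_sm.pow 2).mul (Sm.coord i))).pow 2))).intOn

end Pool.Agent.helper65.Y
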