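import Pool.Agent.helper65.YTaylor

open MeasureTheory Filter Asymptotics
open scoped ContDiff Topology

namespace Pool.Agent.helper65.Y

variable {c : ℝ} {d e : ℤ} {f g h w φ : E3 → ℝ} {x : E3} {i j k : Fin 3}

/-- second order necessary condition -/
lemma second_order {F : ℝ → ℝ} {F1 F2 : ℝ}
    (hF : (fun s => F s - (F1 * s + F2 * s ^ 2)) =O[𝓝 0] fun s : ℝ => s ^ 3)
    (hneg : ∀ᶠ s in 𝓝 (0:ℝ), F s ≤ 0) : F1 = 0 ∧ F2 ≤ 0 := by
  obtain ⟨C, hC⟩ := hF.bound
  have key : ∀ᶠ s in 𝓝 (0:ℝ), F1 * s + F2 * s ^ 2 ≤ C * |s| ^ 3 := by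
    filter_upwards [hC, hneg] with s h1 h2
    rw [Real.norm_eq_abs, norm_pow, Real.norm_eq_abs] at h1
    have := (abs_le.1 h1).1
    linarith
  have a1 : F1 ≤ 0 := by
    have ht : Tendsto (fun s : ℝ => C * s ^ 2 - F2 * s) (𝓝[>] 0) (𝓝 0) := by
      have : Tendsto (fun s : ℝ => C * s ^ 2 - F2 * s) (𝓝 0) (𝓝 (C * 0 ^ 2 - F2 * 0)) := by
        apply Continuous.tendsto; fun_prop
      simpa using this.mono_left nhdsWithin_le_nhds
    refine ge_of_tendsto ht ?_
    filter_upwards [key.filter_mono nhdsWithin_le_nhds, self_mem_nhdsWithin] with s h1 h2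
    have hs : 0 < s := h2
    rw [abs_of_pos hs] at h1
    by_contra hlt
    push Not at hlt
    nlinarith
  have a2 : 0 ≤ F1 := by
    have ht : Tendsto (fun s : ℝ => -(C * s ^ 2) - F2 * s) (𝓝[<] 0) (𝓝 0) := by
      have : Tendsto (fun s : ℝ => -(C * s ^ 2) - F2 * s) (𝓝 0) (𝓝 (-(C * 0 ^ 2) - F2 * 0)) := by
        apply Continuous.tendsto; fun_prop
      simpa using this.mono_left nhdsWithin_le_nhds
    refine le_of_tendsto ht ?_
    filter_upwards [key.filter_mono nhdsWithin_le_nhds, self_mem_nhdsWithin] with s h1 h2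
    have hs : s < 0 := h2
    rw [abs_of_neg hs] at h1
    by_contra hlt
    push Not at hlt
    nlinarith
  have a0 : F1 = 0 := le_antisymm a1 a2
  refine ⟨a0, ?_⟩
  have ht : Tendsto (fun s : ℝ => C * s) (𝓝[>] 0) (𝓝 0) := by
    have : Tendsto (fun s : ℝ => C * s) (𝓝 0) (𝓝 (C * 0)) := by
      apply Continuous.tendsto; fun_prop
    simpa using this.mono_left nhdsWithin_le_nhds
  refine ge_of_tendsto ht ?_
  filter_upwards [key.filter_mono nhdsWithin_le_nhds, self_mem_nhdsWithin] with s h1 h2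
  have hs : 0 < s := h2
  rw [abs_of_pos hs, a0] at h1
  by_contra hlt
  push Not at hlt
  have hs2 : 0 < s ^ 2 := by positivity
  nlinarith

lemma bigO_of_bound {G : ℝ → ℝ} {C : ℝ} (h : ∀ s : ℝ, |s| ≤ 1 → |G s| ≤ C * |s| ^ 3) :
    G =O[𝓝 0] fun s : ℝ => s ^ 3 := by
  apply IsBigO.of_bound C
  have : {s : ℝ | |s| < 1} ∈ 𝓝 (0:ℝ) :=
    (isOpen_lt continuous_abs continuous_const).mem_nhds (by simp)
  filter_upwards [this] with s hs
  rw [Real.norm_eq_abs, norm_pow, Real.norm_eq_abs]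
  exact h s (le_of_lt hs)

lemma quad_O1 (a b e : ℝ) : (fun s : ℝ => a + s * b + s ^ 2 * e) =O[𝓝 0] fun _ => (1:ℝ) := by
  have : Tendsto (fun s : ℝ => a + s * b + s ^ 2 * e) (𝓝 0) (𝓝 (a + 0 * b + 0 ^ 2 * e)) := by
    apply Continuous.tendsto; fun_prop
  exact this.isBigO_one ℝ

lemma O1_of {G : ℝ → ℝ} {a b e : ℝ}
    (h : (fun s => G s - (a + s * b + s ^ 2 * e)) =O[𝓝 0] fun s : ℝ => s ^ 3) :
    G =O[𝓝 0] fun _ => (1:ℝ) := by
  have h3 : (fun s : ℝ => s ^ 3) =O[𝓝 0] fun _ => (1:ℝ) := by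
    have : Tendsto (fun s : ℝ => s ^ 3) (𝓝 0) (𝓝 (0 ^ 3)) := by
      apply Continuous.tendsto; fun_prop
    exact this.isBigO_one ℝ
  have := (h.trans h3).add (quad_O1 a b e)
  simpa using this

lemma prod_expand {G H : ℝ → ℝ} {a b e a' b' e' : ℝ}
    (hG : (fun s => G s - (a + s * b + s ^ 2 * e)) =O[𝓝 0] fun s : ℝ => s ^ 3)
    (hH : (fun s => H s - (a' + s * b' + s ^ 2 * e')) =O[𝓝 0] fun s : ℝ => s ^ 3) :
    (fun s => G s * H s - (a * a' + s * (a * b' + b * a') + s ^ 2 * (a * e' + b * b' + e * a')))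
      =O[𝓝 0] fun s : ℝ => s ^ 3 := by
  have h1 := hG.mul (O1_of hH)
  have h2 := (quad_O1 a b e).mul hH
  have h3 : (fun s : ℝ => (b * e' + e * b' + s * (e * e')) * s ^ 3) =O[𝓝 0]
      fun s : ℝ => s ^ 3 := by
    have : (fun s : ℝ => (b * e' + e * b' + s * (e * e'))) =O[𝓝 0] fun _ => (1:ℝ) := by
      have : Tendsto (fun s : ℝ => (b * e' + e * b' + s * (e * e'))) (𝓝 0)
          (𝓝 (b * e' + e * b' + 0 * (e * e'))) := by
        apply Continuous.tendsto; fun_prop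
      exact this.isBigO_one ℝ
    simpa using this.mul (isBigO_refl (fun s : ℝ => s ^ 3) (𝓝 0))
  simp only [mul_one, one_mul] at h1 h2
  have h4 := (h1.add h2).add h3
  refine h4.congr_left fun s => ?_
  ring

/-- abstract form of the second variation inequality -/
lemma second_var {V S1 S2 : ℝ → ℝ} {v0 v1 v2 a0 a1 a2 b0 b1 b2 M : ℝ}
    (hV : (fun s => V s - (v0 + s * v1 + s ^ 2 * v2)) =O[𝓝 0] fun s : ℝ => s ^ 3)
    (h1 : (fun s => S1 s - (a0 + s * a1 + s ^ 2 * a2)) =O[𝓝 0] fun s : ℝ => s ^ 3)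
    (h2 : (fun s => S2 s - (b0 + s * b1 + s ^ 2 * b2)) =O[𝓝 0] fun s : ℝ => s ^ 3)
    (hneg : ∀ᶠ s in 𝓝 (0:ℝ), V s * S2 s ≤ M * S1 s ^ 2)
    (h0 : v0 * b0 = M * a0 ^ 2) (hv0 : 0 < v0) (hM : M ≤ 0) :
    v0 * b2 + v2 * b0 - 2 * M * a0 * a2 ≤ 0 := by
  have e1 := prod_expand hV h2
  have e2 := (prod_expand h1 h1).const_mul_left M
  have e3 := e1.sub e2
  have hF : (fun s => (V s * S2 s - M * S1 s ^ 2) -
      ((v0 * b1 + v1 * b0 - 2 * M * a0 * a1) * s +
       (v0 * b2 + v1 * b1 + v2 * b0 - M * (a1 ^ 2 + 2 * a0 * a2)) * s ^ 2)) =O[𝓝 0]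
      fun s : ℝ => s ^ 3 := by
    refine e3.congr_left fun s => ?_
    linear_combination h0 * (-1)
  obtain ⟨q1, q2⟩ := second_order hF (hneg.mono fun s hs => by linarith)
  have hb1 : b1 = (2 * M * a0 * a1 - v1 * b0) / v0 := by
    field_simp; linarith
  have hb0 : b0 = M * a0 ^ 2 / v0 := by field_simp; linarith
  have key : v0 * b2 + v2 * b0 - 2 * M * a0 * a2 ≤ M * (a1 - a0 * (v1 / v0)) ^ 2 := by
    have : M * a1 ^ 2 - v1 * b1 = M * (a1 - a0 * (v1 / v0)) ^ 2 := by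
      rw [hb1, hb0]; field_simp; ring
    linarith
  have : M * (a1 - a0 * (v1 / v0)) ^ 2 ≤ 0 := mul_nonpos_of_nonpos_of_nonneg hM (sq_nonneg _)
  linarith

/-! ### positivity of integrals -/

lemma Dom_pos (hc : 1 < c) : 0 < volume (Dom c) := by
  have hsub : {x : E3 | 1 < ‖x‖ ∧ ‖x‖ < c} ⊆ Dom c := fun x hx => ⟨hx.1.le, hx.2⟩
  have hopen : IsOpen {x : E3 | 1 < ‖x‖ ∧ ‖x‖ < c} :=
    (isOpen_lt continuous_const continuous_norm).inter
      (isOpen_lt continuous_norm continuous_const)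
  have hne : {x : E3 | 1 < ‖x‖ ∧ ‖x‖ < c}.Nonempty := by
    refine ⟨EuclideanSpace.single 0 ((1 + c) / 2), ?_⟩
    simp only [Set.mem_ofPred_eq, EuclideanSpace.norm_single, Real.norm_eq_abs]
    rw [abs_of_pos (by linarith)]
    constructor <;> linarith
  exact (hopen.measure_pos volume hne).trans_le (measure_mono hsub)

lemma int_pos (hc : 1 < c) (hh : Sm h) (hpos : ∀ x ∈ Dom c, 0 < h x) :
    0 < ∫ x in Dom c, h x := by
  rw [setIntegral_pos_iff_support_of_nonneg_ae]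
  · have : Function.support h ∩ Dom c = Dom c := by
      rw [Set.inter_eq_right]
      intro x hx
      exact (hpos x hx).ne'
    rw [this]
    exact Dom_pos hc
  · rw [EventuallyLE, ae_restrict_iff' Dom_meas]
    exact Eventually.of_forall fun x hx => (hpos x hx).le
  · exact hh.intOn

/-- the three functionals in terms of `w` -/
noncomputable def Vf (c : ℝ) (w : E3 → ℝ) : ℝ := ∫ x in Dom c, Real.exp (-3 * w x)
noncomputable def S1f (c : ℝ) (w : E3 → ℝ) : ℝ := 1 / 2 * ∫ x in Dom c, Real.exp (-w x) * Q w x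
noncomputable def S2f (c : ℝ) (w : E3 → ℝ) : ℝ :=
  -(1 / 4) * ∫ x in Dom c, Real.exp (w x) * Q w x * Lap w x

/-- positivity of `σ₁` in terms of `w` -/
def Ps (w : E3 → ℝ) : Prop := ∀ x, x ≠ 0 → 0 < Lap w x - Q w x / 2

lemma Vf_pos (hc : 1 < c) (hw : Sm w) : 0 < Vf c w :=
  int_pos hc (exp3_sm hw) fun x _ => Real.exp_pos _

lemma S1f_pos (hc : 1 < c) (hw : LH c w) (hp : Ps w) : 0 < S1f c w := by
  unfold S1f
  rw [← int1' hc hw]
  apply int_pos hc (hw.sm.neg.exp.mul (hw.sm.Lap.sub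
    ((hw.sm.Q.mul (Sm.const (1/2))).congr fun x hx => by ring)))
  intro x hx
  exact mul_pos (Real.exp_pos _) (hp x (ne_of_mem_Dom hx))

lemma Q_nonneg (w : E3 → ℝ) (x : E3) : 0 ≤ Q w x := Finset.sum_nonneg fun i _ => sq_nonneg _

/-- the upper bound `E ≤ -1/2` -/
lemma energy_bound (hc : 1 < c) (hw : LH c w) (hp : Ps w) :
    Vf c w * S2f c w ≤ -(1 / 2) * S1f c w ^ 2 := by
  have s := hw.sm
  have hV := Vf_pos hc s
  set P := ∫ x in Dom c, Real.exp (-w x) * Q w x with hP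
  set R := ∫ x in Dom c, Real.exp (w x) * Q w x ^ 2 with hR
  set T := ∫ x in Dom c, Real.exp (w x) * Q w x * Lap w x with hT
  have hRT : R ≤ 2 * T := by
    rw [hR, hT, ← integral_const_mul]
    apply setIntegral_mono_on (s.exp.mul (s.Q.pow 2)).intOn
      ((Sm.const 2).mul ((s.exp.mul s.Q).mul s.Lap)).intOn Dom_meas
    intro x hx
    have h1 := hp x (ne_of_mem_Dom hx)
    have h2 := Q_nonneg w x
    have h3 := Real.exp_pos (w x)
    have h4 : 0 ≤ Real.exp (w x) * Q w x := by positivity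
    nlinarith
  have hCS : ∀ t : ℝ, 0 ≤ R - 2 * t * P + t ^ 2 * Vf c w := by
    intro t
    have : R - 2 * t * P + t ^ 2 * Vf c w =
        ∫ x in Dom c, Real.exp (w x) * (Q w x - t * Real.exp (-2 * w x)) ^ 2 := by
      have e : ∀ x, Real.exp (w x) * (Q w x - t * Real.exp (-2 * w x)) ^ 2 =
          Real.exp (w x) * Q w x ^ 2 - 2 * t * (Real.exp (-w x) * Q w x)
            + t ^ 2 * Real.exp (-3 * w x) := by
        intro x
        have e1 : Real.exp (-w x) = Real.exp (w x) * Real.exp (-2 * w x) := by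
          rw [← Real.exp_add]; congr 1; ring
        have e2 : Real.exp (-3 * w x) = Real.exp (w x) * Real.exp (-2 * w x) ^ 2 := by
          rw [← Real.exp_nat_mul, ← Real.exp_add]; congr 1; push_cast; ring
        rw [e1, e2]; ring
      simp only [e]
      have i1 : Sm (fun x => Real.exp (w x) * Q w x ^ 2) := s.exp.mul (s.Q.pow 2)
      have i2 : Sm (fun x => 2 * t * (Real.exp (-w x) * Q w x)) :=
        (Sm.const _).mul (s.neg.exp.mul s.Q)
      have i3 : Sm (fun x => t ^ 2 * Real.exp (-3 * w x)) := (Sm.const _).mul (exp3_sm s)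
      rw [integral_add (i1.sub i2).intOn i3.intOn, integral_sub i1.intOn i2.intOn,
        integral_const_mul, integral_const_mul]
      rfl
    rw [this]
    apply integral_nonneg
    intro x
    positivity
  have h1 := hCS (P / Vf c w)
  have h2 : P ^ 2 ≤ Vf c w * R := by
    have : R - 2 * (P / Vf c w) * P + (P / Vf c w) ^ 2 * Vf c w = (Vf c w * R - P ^ 2) / Vf c w := by
      field_simp; ring
    rw [this] at h1
    have := (div_nonneg_iff.1 h1)
    rcases this with h | h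
    · linarith [h.1]
    · linarith [h.2]
  have h3 : P ^ 2 ≤ 2 * (Vf c w * T) := by nlinarith
  have e1 : S1f c w = P / 2 := by unfold S1f; ring
  have e2 : S2f c w = - T / 4 := by unfold S2f; ring
  rw [e1, e2]
  nlinarith

end Pool.Agent.helper65.Y
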