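import Pool.Agent.helper65.YCalc

open MeasureTheory Matrix
open scoped ContDiff Topology

namespace Pool.Agent.helper65.Y

variable {w : E3 → ℝ} {x : E3} {g : E3 → Matrix (Fin 3) (Fin 3) ℝ}

/-- `|∇w|²` -/
noncomputable def Q (w : E3 → ℝ) (x : E3) : ℝ := ∑ i, pd i w x ^ 2

/-- the flat Laplacian -/
noncomputable def Lap (w : E3 → ℝ) (x : E3) : ℝ := ∑ i, pd i (pd i w) x

/-- `Σ_ij w_ij w_i w_j` -/
noncomputable def HQ (w : E3 → ℝ) (x : E3) : ℝ := ∑ i, ∑ j, pd j (pd i w) x * pd i w x * pd j w x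

/-- `Σ_ij w_ij²` -/
noncomputable def H2 (w : E3 → ℝ) (x : E3) : ℝ := ∑ i, ∑ j, pd j (pd i w) x ^ 2

/-- `g` is the conformally flat metric `e^{-2w} δ` away from the origin. -/
def IsConf (g : E3 → Matrix (Fin 3) (Fin 3) ℝ) (w : E3 → ℝ) : Prop :=
  ∀ x, x ≠ 0 → g x = Real.exp (-2 * w x) • (1 : Matrix (Fin 3) (Fin 3) ℝ)

lemma IsConf.inv (hg : IsConf g w) (hx : x ≠ 0) :
    (g x)⁻¹ = Real.exp (2 * w x) • (1 : Matrix (Fin 3) (Fin 3) ℝ) := by
  rw [hg x hx]
  apply Matrix.inv_eq_right_inv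
  rw [Matrix.smul_mul, Matrix.mul_smul, Matrix.one_mul, smul_smul, ← Real.exp_add]
  simp

lemma IsConf.entry (hg : IsConf g w) (hx : x ≠ 0) (i j : Fin 3) :
    g x i j = Real.exp (-2 * w x) * (if i = j then 1 else 0) := by
  rw [hg x hx]; simp [Matrix.one_apply]

lemma IsConf.pd_entry (hg : IsConf g w) (hw : Sm w) (hx : x ≠ 0) (a i j : Fin 3) :
    pd a (fun y => g y i j) x =
      -2 * Real.exp (-2 * w x) * pd a w x * (if i = j then 1 else 0) := by
  have h1 : pd a (fun y => g y i j) x =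
      pd a (fun y => Real.exp (-2 * w y) * (if i = j then 1 else 0)) x :=
    pd_congr (fun y hy => hg.entry hy i j) hx
  rw [h1]
  have hs : Sm (fun y => -2 * w y) := (Sm.const (-2)).mul hw
  rw [pd_mul hs.exp (Sm.const _) hx, pd_const, pd_exp hs hx, pd_const_mul _ hw hx]
  ring

/-- the Christoffel symbols of `e^{-2w} δ` -/
lemma IsConf.gam (hg : IsConf g w) (hw : Sm w) (hx : x ≠ 0) (k i j : Fin 3) :
    Gam g k i j x = -((if k = j then pd i w x else 0) + (if k = i then pd j w x else 0)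
      - (if i = j then pd k w x else 0)) := by
  unfold Gam
  simp only [hg.pd_entry hw hx, hg.inv hx]
  have e : Real.exp (2 * w x) * Real.exp (-2 * w x) = 1 := by
    rw [← Real.exp_add]; simp
  have h : ∀ l : Fin 3, (Real.exp (2 * w x) • (1 : Matrix (Fin 3) (Fin 3) ℝ)) k l *
      (-2 * Real.exp (-2 * w x) * pd i w x * (if j = l then 1 else 0)
       + -2 * Real.exp (-2 * w x) * pd j w x * (if i = l then 1 else 0)
       - -2 * Real.exp (-2 * w x) * pd l w x * (if i = j then 1 else 0)) =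
      (if k = l then -2 * (pd i w x * (if j = l then 1 else 0)
       + pd j w x * (if i = l then 1 else 0) - pd l w x * (if i = j then 1 else 0)) else 0) := by
    intro l
    by_cases hkl : k = l
    · simp only [Matrix.smul_apply, Matrix.one_apply, smul_eq_mul, hkl, if_true]
      linear_combination (-2 * (pd i w x * (if j = l then 1 else 0)
       + pd j w x * (if i = l then 1 else 0) - pd l w x * (if i = j then 1 else 0))) * e
    · simp [hkl]
  simp only [h, Finset.sum_ite_eq, Finset.mem_univ, if_true]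
  simp only [eq_comm (a := k)]
  split_ifs <;> ring

/-- the Ricci tensor of `e^{-2w} δ` -/
lemma IsConf.ric (hg : IsConf g w) (hw : Sm w) (hx : x ≠ 0) (i j : Fin 3) :
    Ric g x i j = pd i (pd j w) x + pd i w x * pd j w x
      + (if i = j then Lap w x - Q w x else 0) := by
  have hG : ∀ a k i j : Fin 3, pd a (Gam g k i j) x =
      -((if k = j then pd a (pd i w) x else 0) + (if k = i then pd a (pd j w) x else 0)
      - (if i = j then pd a (pd k w) x else 0)) := by
    intro a k i j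
    have h1 : pd a (Gam g k i j) x = pd a (fun y => -((if k = j then 1 else 0) * pd i w y
      + (if k = i then 1 else 0) * pd j w y - (if i = j then 1 else 0) * pd k w y)) x := by
      apply pd_congr _ hx
      intro y hy
      rw [hg.gam hw hy]
      simp
    rw [h1, pd_neg, pd_sub _ _ hx, pd_add _ _ hx, pd_const_mul _ (hw.pd _) hx,
      pd_const_mul _ (hw.pd _) hx, pd_const_mul _ (hw.pd _) hx]
    · simp
    · exact (Sm.const _).mul (hw.pd _)
    · exact (Sm.const _).mul (hw.pd _)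
    · exact ((Sm.const _).mul (hw.pd _)).add ((Sm.const _).mul (hw.pd _))
    · exact (Sm.const _).mul (hw.pd _)
  have c10 := pd_comm (i := 1) (j := 0) hw hx
  have c20 := pd_comm (i := 2) (j := 0) hw hx
  have c21 := pd_comm (i := 2) (j := 1) hw hx
  simp only [Ric, Matrix.of_apply, hG, hg.gam hw hx, Lap, Q, Fin.sum_univ_three]
  fin_cases i <;> fin_cases j <;> simp <;> linarith

lemma exp_cancel (a : ℝ) : Real.exp (2 * a) * Real.exp (-2 * a) = 1 := by
  rw [← Real.exp_add]; simp

lemma IsConf.scal (hg : IsConf g w) (hw : Sm w) (hx : x ≠ 0) :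
    Scal g x = Real.exp (2 * w x) * (4 * Lap w x - 2 * Q w x) := by
  unfold Scal
  rw [hg.inv hx, Matrix.smul_mul, Matrix.one_mul, Matrix.trace_smul, Matrix.trace_fin_three]
  simp only [hg.ric hw hx, smul_eq_mul, if_true]
  simp only [Lap, Q, Fin.sum_univ_three]
  ring

lemma IsConf.sch (hg : IsConf g w) (hw : Sm w) (hx : x ≠ 0) (i j : Fin 3) :
    Sch g x i j = Real.exp (2 * w x) * (pd i (pd j w) x + pd i w x * pd j w x
      - (if i = j then Q w x / 2 else 0)) := by
  unfold Sch
  rw [hg.inv hx, Matrix.smul_mul, Matrix.one_mul, hg.scal hw hx]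
  simp only [Matrix.smul_apply, Matrix.sub_apply, hg.ric hw hx, smul_eq_mul, hg.entry hx]
  have e := exp_cancel (w x)
  by_cases h : i = j
  · simp only [h, if_true]
    linear_combination (-Real.exp (2 * w x) * (4 * Lap w x - 2 * Q w x) / 4) * e
  · simp [h]

lemma IsConf.sig1 (hg : IsConf g w) (hw : Sm w) (hx : x ≠ 0) :
    sig1 g x = Real.exp (2 * w x) * (Lap w x - Q w x / 2) := by
  unfold Y.sig1
  rw [Matrix.trace_fin_three]
  simp only [hg.sch hw hx, if_true]
  simp only [Lap, Q, Fin.sum_univ_three]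
  ring

lemma IsConf.sig2 (hg : IsConf g w) (hw : Sm w) (hx : x ≠ 0) :
    sig2 g x = Real.exp (4 * w x) / 2 *
      (Lap w x ^ 2 - H2 w x - 2 * HQ w x - Q w x ^ 2 / 2) := by
  have e4 : Real.exp (4 * w x) = Real.exp (2 * w x) ^ 2 := by
    rw [← Real.exp_nat_mul]; congr 1; push_cast; ring
  have c10 := pd_comm (i := 1) (j := 0) hw hx
  have c20 := pd_comm (i := 2) (j := 0) hw hx
  have c21 := pd_comm (i := 2) (j := 1) hw hx
  unfold Y.sig2
  rw [Matrix.trace_fin_three, Matrix.trace_fin_three]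
  simp only [Matrix.mul_apply, hg.sch hw hx, Fin.sum_univ_three, e4]
  simp only [H2, HQ, Lap, Q, Fin.sum_univ_three, c10, c20, c21]
  simp
  ring

lemma IsConf.dens (hg : IsConf g w) (hx : x ≠ 0) :
    dens g x = Real.exp (-3 * w x) := by
  unfold Y.dens
  rw [hg x hx, Matrix.det_smul, Matrix.det_one, mul_one, Fintype.card_fin]
  have : Real.exp (-2 * w x) ^ 3 = Real.exp (-3 * w x) ^ 2 := by
    rw [← Real.exp_nat_mul, ← Real.exp_nat_mul]; congr 1; push_cast; ring
  rw [this, Real.sqrt_sq (Real.exp_pos _).le]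

lemma IsConf.sig1_dens (hg : IsConf g w) (hw : Sm w) (hx : x ≠ 0) :
    Y.sig1 g x * Y.dens g x = Real.exp (-w x) * (Lap w x - Q w x / 2) := by
  rw [hg.sig1 hw hx, hg.dens hx]
  have : Real.exp (-w x) = Real.exp (2 * w x) * Real.exp (-3 * w x) := by
    rw [← Real.exp_add]; congr 1; ring
  rw [this]; ring

lemma IsConf.sig2_dens (hg : IsConf g w) (hw : Sm w) (hx : x ≠ 0) :
    Y.sig2 g x * Y.dens g x = Real.exp (w x) / 2 *
      (Lap w x ^ 2 - H2 w x - 2 * HQ w x - Q w x ^ 2 / 2) := by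
  rw [hg.sig2 hw hx, hg.dens hx]
  have : Real.exp (w x) = Real.exp (4 * w x) * Real.exp (-3 * w x) := by
    rw [← Real.exp_add]; congr 1; ring
  rw [this]; ring

end Pool.Agent.helper65.Y
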