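import Pool.Agent.helper65.YVar

open MeasureTheory Filter Asymptotics
open scoped ContDiff Topology

namespace Pool.Agent.helper65.Y

variable {c : ℝ} {d e : ℤ} {f g h w φ : E3 → ℝ} {x : E3} {i j k : Fin 3}

lemma exp_taylor2 (y : ℝ) : |Real.exp y - (1 + y + y ^ 2 / 2)| ≤ |y| ^ 3 * Real.exp |y| := by
  have h := Complex.norm_exp_sub_sum_le_norm_mul_exp (y : ℂ) 3
  have e : (Complex.exp (y : ℂ) - ∑ m ∈ Finset.range 3, (y : ℂ) ^ m / (m.factorial : ℂ)) =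
      ((Real.exp y - (1 + y + y ^ 2 / 2) : ℝ) : ℂ) := by
    simp [Finset.sum_range_succ, Nat.factorial]
  rw [e, Complex.norm_real, Complex.norm_real] at h
  exact h

lemma Sm.bounded (hh : Sm h) (c : ℝ) : ∃ B, ∀ x ∈ Dom c, |h x| ≤ B := by
  have hK : IsCompact {x : E3 | 1 ≤ ‖x‖ ∧ ‖x‖ ≤ c} := by
    apply Metric.isCompact_of_isClosed_isBounded
    · exact (isClosed_le continuous_const continuous_norm).inter
        (isClosed_le continuous_norm continuous_const)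
    · apply (Metric.isBounded_closedBall (x := (0:E3)) (r := c)).subset
      intro x hx
      simpa using hx.2
  have hc : ContinuousOn h {x : E3 | 1 ≤ ‖x‖ ∧ ‖x‖ ≤ c} := by
    apply hh.continuousOn.mono
    rintro x ⟨h1, _⟩ rfl
    simp at h1; linarith
  obtain ⟨B, hB⟩ := hK.exists_bound_of_continuousOn hc
  exact ⟨B, fun x hx => hB x ⟨hx.1, hx.2.le⟩⟩

lemma Dom_finite : volume (Dom c) < ⊤ := by
  have : Dom c ⊆ Metric.ball (0:E3) c := by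
    intro x hx
    simpa using hx.2
  exact (measure_mono this).trans_lt measure_ball_lt_top

lemma pointwise_taylor {κ B y0 a0 a1 a2 a3 s : ℝ} (hB1 : 1 ≤ B) (hy : |y0| ≤ B) (h0 : |a0| ≤ B)
    (h1 : |a1| ≤ B) (h2 : |a2| ≤ B) (h3 : |a3| ≤ B) (hs : |s| ≤ 1) :
    |Real.exp (κ * s * y0) * (a0 + s * a1 + s ^ 2 * a2 + s ^ 3 * a3) -
      (a0 + s * (κ * y0 * a0 + a1) + s ^ 2 * (κ ^ 2 / 2 * y0 ^ 2 * a0 + κ * y0 * a1 + a2))| ≤
      (4 * B * (|κ| * B) ^ 3 * Real.exp (|κ| * B) + 6 * B * (1 + |κ| * B) ^ 2) * |s| ^ 3 := by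
  have hB0 : 0 ≤ B := by linarith
  set y := κ * s * y0 with hyd
  have hs0 := abs_nonneg s
  have hκ0 := abs_nonneg κ
  have hyb : |y| ≤ (|κ| * B) * |s| := by
    rw [hyd, abs_mul, abs_mul]
    calc |κ| * |s| * |y0| ≤ |κ| * |s| * B := by gcongr
      _ = _ := by ring
  have hyb' : |y| ≤ |κ| * B := by
    calc |y| ≤ (|κ| * B) * |s| := hyb
      _ ≤ (|κ| * B) * 1 := by gcongr
      _ = _ := by ring
  have he := exp_taylor2 y
  have hP : |a0 + s * a1 + s ^ 2 * a2 + s ^ 3 * a3| ≤ 4 * B := by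
    have t1 : |s * a1| ≤ B := by
      rw [abs_mul]; calc |s| * |a1| ≤ 1 * B := by gcongr
        _ = B := one_mul B
    have t2 : |s ^ 2 * a2| ≤ B := by
      rw [abs_mul, abs_pow]; calc |s| ^ 2 * |a2| ≤ 1 ^ 2 * B := by gcongr
        _ = B := by ring
    have t3 : |s ^ 3 * a3| ≤ B := by
      rw [abs_mul, abs_pow]; calc |s| ^ 3 * |a3| ≤ 1 ^ 3 * B := by gcongr
        _ = B := by ring
    calc |a0 + s * a1 + s ^ 2 * a2 + s ^ 3 * a3|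
        ≤ |a0 + s * a1 + s ^ 2 * a2| + |s ^ 3 * a3| := abs_add_le _ _
      _ ≤ |a0 + s * a1| + |s ^ 2 * a2| + |s ^ 3 * a3| := by gcongr; exact abs_add_le _ _
      _ ≤ |a0| + |s * a1| + |s ^ 2 * a2| + |s ^ 3 * a3| := by gcongr; exact abs_add_le _ _
      _ ≤ B + B + B + B := by gcongr
      _ = 4 * B := by ring
  have hsplit : Real.exp y * (a0 + s * a1 + s ^ 2 * a2 + s ^ 3 * a3) -
      (a0 + s * (κ * y0 * a0 + a1) + s ^ 2 * (κ ^ 2 / 2 * y0 ^ 2 * a0 + κ * y0 * a1 + a2)) =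
      (Real.exp y - (1 + y + y ^ 2 / 2)) * (a0 + s * a1 + s ^ 2 * a2 + s ^ 3 * a3) +
      s ^ 3 * ((a3 + (κ * y0) * a2 + (κ * y0) ^ 2 / 2 * a1) +
        s * ((κ * y0) * a3 + (κ * y0) ^ 2 / 2 * a2) + s ^ 2 * ((κ * y0) ^ 2 / 2 * a3)) := by
    rw [hyd]; ring
  rw [hsplit]
  have hE : |(Real.exp y - (1 + y + y ^ 2 / 2)) * (a0 + s * a1 + s ^ 2 * a2 + s ^ 3 * a3)| ≤
      (4 * B * (|κ| * B) ^ 3 * Real.exp (|κ| * B)) * |s| ^ 3 := by
    rw [abs_mul]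
    calc |Real.exp y - (1 + y + y ^ 2 / 2)| * |a0 + s * a1 + s ^ 2 * a2 + s ^ 3 * a3|
        ≤ (|y| ^ 3 * Real.exp |y|) * (4 * B) := by gcongr
      _ ≤ (((|κ| * B) * |s|) ^ 3 * Real.exp (|κ| * B)) * (4 * B) := by gcongr
      _ = _ := by ring
  set z := κ * y0 with hz
  have hzb : |z| ≤ |κ| * B := by rw [hz, abs_mul]; gcongr
  set K := |κ| * B with hK
  have hK0 : 0 ≤ K := by positivity
  have hz2 : |z ^ 2 / 2| ≤ K ^ 2 := by
    rw [abs_div, abs_pow]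
    calc |z| ^ 2 / |(2:ℝ)| ≤ K ^ 2 / |(2:ℝ)| := by gcongr
      _ = K ^ 2 / 2 := by norm_num
      _ ≤ K ^ 2 := by nlinarith [sq_nonneg K]
  have hR : |(a3 + z * a2 + z ^ 2 / 2 * a1) + s * (z * a3 + z ^ 2 / 2 * a2) +
      s ^ 2 * (z ^ 2 / 2 * a3)| ≤ 6 * B * (1 + K) ^ 2 := by
    have u1 : |z * a2| ≤ K * B := by rw [abs_mul]; gcongr
    have u2 : |z ^ 2 / 2 * a1| ≤ K ^ 2 * B := by rw [abs_mul]; gcongr
    have u3 : |z * a3| ≤ K * B := by rw [abs_mul]; gcongr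
    have u4 : |z ^ 2 / 2 * a2| ≤ K ^ 2 * B := by rw [abs_mul]; gcongr
    have u5 : |z ^ 2 / 2 * a3| ≤ K ^ 2 * B := by rw [abs_mul]; gcongr
    have v1 : |s * (z * a3 + z ^ 2 / 2 * a2)| ≤ K * B + K ^ 2 * B := by
      rw [abs_mul]
      calc |s| * |z * a3 + z ^ 2 / 2 * a2| ≤ 1 * (|z * a3| + |z ^ 2 / 2 * a2|) := by
            gcongr; exact abs_add_le _ _
        _ ≤ 1 * (K * B + K ^ 2 * B) := by gcongr
        _ = _ := one_mul _
    have v2 : |s ^ 2 * (z ^ 2 / 2 * a3)| ≤ K ^ 2 * B := by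
      rw [abs_mul, abs_pow]
      calc |s| ^ 2 * |z ^ 2 / 2 * a3| ≤ 1 ^ 2 * (K ^ 2 * B) := by gcongr
        _ = _ := by ring
    calc |(a3 + z * a2 + z ^ 2 / 2 * a1) + s * (z * a3 + z ^ 2 / 2 * a2) +
          s ^ 2 * (z ^ 2 / 2 * a3)|
        ≤ |(a3 + z * a2 + z ^ 2 / 2 * a1) + s * (z * a3 + z ^ 2 / 2 * a2)| +
          |s ^ 2 * (z ^ 2 / 2 * a3)| := abs_add_le _ _
      _ ≤ |a3 + z * a2 + z ^ 2 / 2 * a1| + |s * (z * a3 + z ^ 2 / 2 * a2)| +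
          |s ^ 2 * (z ^ 2 / 2 * a3)| := by gcongr; exact abs_add_le _ _
      _ ≤ |a3 + z * a2| + |z ^ 2 / 2 * a1| + |s * (z * a3 + z ^ 2 / 2 * a2)| +
          |s ^ 2 * (z ^ 2 / 2 * a3)| := by gcongr; exact abs_add_le _ _
      _ ≤ |a3| + |z * a2| + |z ^ 2 / 2 * a1| + |s * (z * a3 + z ^ 2 / 2 * a2)| +
          |s ^ 2 * (z ^ 2 / 2 * a3)| := by gcongr; exact abs_add_le _ _
      _ ≤ B + K * B + K ^ 2 * B + (K * B + K ^ 2 * B) + K ^ 2 * B := by gcongr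
      _ ≤ 6 * B * (1 + K) ^ 2 := by nlinarith [mul_nonneg hB0 hK0, mul_nonneg hB0 (sq_nonneg K)]
  calc |(Real.exp y - (1 + y + y ^ 2 / 2)) * (a0 + s * a1 + s ^ 2 * a2 + s ^ 3 * a3) +
        s ^ 3 * ((a3 + z * a2 + z ^ 2 / 2 * a1) + s * (z * a3 + z ^ 2 / 2 * a2) +
          s ^ 2 * (z ^ 2 / 2 * a3))|
      ≤ |(Real.exp y - (1 + y + y ^ 2 / 2)) * (a0 + s * a1 + s ^ 2 * a2 + s ^ 3 * a3)| +
        |s ^ 3 * ((a3 + z * a2 + z ^ 2 / 2 * a1) + s * (z * a3 + z ^ 2 / 2 * a2) +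
          s ^ 2 * (z ^ 2 / 2 * a3))| := abs_add_le _ _
    _ ≤ (4 * B * K ^ 3 * Real.exp K) * |s| ^ 3 + |s| ^ 3 * (6 * B * (1 + K) ^ 2) := by
        gcongr
        rw [abs_mul, abs_pow]; gcongr
    _ = _ := by ring

lemma taylor_int (κ : ℝ) {p0 p1 p2 p3 : E3 → ℝ} (hφ : Sm φ) (h0 : Sm p0) (h1 : Sm p1)
    (h2 : Sm p2) (h3 : Sm p3) (c : ℝ) :
    ∃ C, ∀ s : ℝ, |s| ≤ 1 →
      |(∫ x in Dom c, Real.exp (κ * s * φ x) * (p0 x + s * p1 x + s ^ 2 * p2 x + s ^ 3 * p3 x)) -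
        ((∫ x in Dom c, p0 x) + s * (∫ x in Dom c, (κ * φ x * p0 x + p1 x)) +
          s ^ 2 * ∫ x in Dom c, (κ ^ 2 / 2 * φ x ^ 2 * p0 x + κ * φ x * p1 x + p2 x))| ≤
      C * |s| ^ 3 := by
  obtain ⟨B, hB⟩ := hφ.bounded c
  obtain ⟨B0, hB0⟩ := h0.bounded c
  obtain ⟨B1, hB1⟩ := h1.bounded c
  obtain ⟨B2, hB2⟩ := h2.bounded c
  obtain ⟨B3, hB3⟩ := h3.bounded c
  set D := max 1 (max B (max B0 (max B1 (max B2 B3)))) with hD
  have d1 : 1 ≤ D := le_max_left _ _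
  have dB : B ≤ D := (le_max_left _ _).trans (le_max_right _ _)
  have dB0 : B0 ≤ D := (le_max_left _ _).trans ((le_max_right _ _).trans (le_max_right _ _))
  have dB1 : B1 ≤ D := (le_max_left _ _).trans ((le_max_right _ _).trans ((le_max_right _ _).trans
    (le_max_right _ _)))
  have dB2 : B2 ≤ D := (le_max_left _ _).trans ((le_max_right _ _).trans ((le_max_right _ _).trans
    ((le_max_right _ _).trans (le_max_right _ _))))
  have dB3 : B3 ≤ D := (le_max_right _ _).trans ((le_max_right _ _).trans ((le_max_right _ _).trans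
    ((le_max_right _ _).trans (le_max_right _ _))))
  refine ⟨(4 * D * (|κ| * D) ^ 3 * Real.exp (|κ| * D) + 6 * D * (1 + |κ| * D) ^ 2) *
    volume.real (Dom c), fun s hs => ?_⟩
  have s0 : Sm (fun x => Real.exp (κ * s * φ x) *
      (p0 x + s * p1 x + s ^ 2 * p2 x + s ^ 3 * p3 x)) :=
    (((Sm.const (κ * s)).mul hφ).exp).mul (((h0.add ((Sm.const s).mul h1)).add
      ((Sm.const (s ^ 2)).mul h2)).add ((Sm.const (s ^ 3)).mul h3))
  have s1 : Sm (fun x => κ * φ x * p0 x + p1 x) := (((Sm.const κ).mul hφ).mul h0).add h1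
  have s2 : Sm (fun x => κ ^ 2 / 2 * φ x ^ 2 * p0 x + κ * φ x * p1 x + p2 x) :=
    ((((Sm.const (κ ^ 2 / 2)).mul (hφ.pow 2)).mul h0).add (((Sm.const κ).mul hφ).mul h1)).add h2
  have e1 : (∫ x in Dom c, Real.exp (κ * s * φ x) *
      (p0 x + s * p1 x + s ^ 2 * p2 x + s ^ 3 * p3 x)) -
        ((∫ x in Dom c, p0 x) + s * (∫ x in Dom c, (κ * φ x * p0 x + p1 x)) +
          s ^ 2 * ∫ x in Dom c, (κ ^ 2 / 2 * φ x ^ 2 * p0 x + κ * φ x * p1 x + p2 x)) =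
      ∫ x in Dom c, (Real.exp (κ * s * φ x) *
      (p0 x + s * p1 x + s ^ 2 * p2 x + s ^ 3 * p3 x) - (p0 x + s * (κ * φ x * p0 x + p1 x) +
        s ^ 2 * (κ ^ 2 / 2 * φ x ^ 2 * p0 x + κ * φ x * p1 x + p2 x))) := by
    have q1 : Sm (fun x => s * (κ * φ x * p0 x + p1 x)) := (Sm.const s).mul s1
    have q2 : Sm (fun x => s ^ 2 * (κ ^ 2 / 2 * φ x ^ 2 * p0 x + κ * φ x * p1 x + p2 x)) :=
      (Sm.const (s ^ 2)).mul s2
    rw [integral_sub s0.intOn ((h0.add q1).add q2).intOn,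
      integral_add (h0.add q1).intOn q2.intOn, integral_add h0.intOn q1.intOn,
      integral_const_mul, integral_const_mul]
  rw [e1]
  have hb : ∀ x ∈ Dom c, ‖Real.exp (κ * s * φ x) *
      (p0 x + s * p1 x + s ^ 2 * p2 x + s ^ 3 * p3 x) - (p0 x + s * (κ * φ x * p0 x + p1 x) +
        s ^ 2 * (κ ^ 2 / 2 * φ x ^ 2 * p0 x + κ * φ x * p1 x + p2 x))‖ ≤
      (4 * D * (|κ| * D) ^ 3 * Real.exp (|κ| * D) + 6 * D * (1 + |κ| * D) ^ 2) * |s| ^ 3 := by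
    intro x hx
    exact pointwise_taylor d1 ((hB x hx).trans dB) ((hB0 x hx).trans dB0) ((hB1 x hx).trans dB1)
      ((hB2 x hx).trans dB2) ((hB3 x hx).trans dB3) hs
  have := norm_setIntegral_le_of_norm_le_const Dom_finite hb
  rw [Real.norm_eq_abs] at this
  calc _ ≤ _ := this
    _ = _ := by ring

end Pool.Agent.helper65.Y
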