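import Pool.Agent.helper65.YK

open MeasureTheory Filter
open scoped ContDiff Topology

namespace Pool.Agent.helper65.Y

variable {c : ℝ} {d e : ℤ} {f g h w φ : E3 → ℝ} {x : E3} {i j k : Fin 3}

lemma Sm.Dt {u v : E3 → ℝ} (hu : Sm u) (hv : Sm v) : Sm (Dt u v) :=
  Sm.sum fun a _ => (hu.pd a).mul (hv.pd a)

/-- second variation integrand -/
noncomputable def NN (A B C : ℝ) (w φ : E3 → ℝ) (x : E3) : ℝ :=
  -(1 / 4) * A * (Real.exp (w x) * (1 / 2 * φ x ^ 2 * Q w x * Lap w x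
     + φ x * (2 * Dt w φ x * Lap w x + Q w x * Lap φ x) + Q φ x * Lap w x
     + 2 * Dt w φ x * Lap φ x))
  + 9 / 2 * B * (Real.exp (-3 * w x) * φ x ^ 2)
  - C * (Real.exp (-w x) * (1 / 2 * φ x ^ 2 * Q w x - 2 * φ x * Dt w φ x + Q φ x))

lemma NN_sm {A B C : ℝ} (hw : Sm w) (hφ : Sm φ) : Sm (NN A B C w φ) := by
  have h3 : Sm (fun x => -3 * w x) := (Sm.const _).mul hw
  have t1 : Sm (fun x => 1 / 2 * φ x ^ 2 * Q w x * Lap w x) :=
    (((Sm.const _).mul (hφ.pow 2)).mul hw.Q).mul hw.Lap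
  have t2 : Sm (fun x => φ x * (2 * Dt w φ x * Lap w x + Q w x * Lap φ x)) :=
    hφ.mul ((((Sm.const _).mul (hw.Dt hφ)).mul hw.Lap).add (hw.Q.mul hφ.Lap))
  have t3 : Sm (fun x => Q φ x * Lap w x) := hφ.Q.mul hw.Lap
  have t4 : Sm (fun x => 2 * Dt w φ x * Lap φ x) := ((Sm.const _).mul (hw.Dt hφ)).mul hφ.Lap
  have t5 : Sm (fun x => 1 / 2 * φ x ^ 2 * Q w x - 2 * φ x * Dt w φ x + Q φ x) :=
    ((((Sm.const _).mul (hφ.pow 2)).mul hw.Q).sub (((Sm.const _).mul hφ).mul (hw.Dt hφ))).add hφ.Q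
  exact (((Sm.const _).mul (hw.exp.mul (((t1.add t2).add t3).add t4))).add
    ((Sm.const _).mul (h3.exp.mul (hφ.pow 2)))).sub ((Sm.const _).mul (hw.neg.exp.mul t5))

/-- the high frequency test functions -/
noncomputable def cs (t : ℝ) (i : Fin 3) (x : E3) : ℝ := Real.cos (t * xi i x)
noncomputable def sn (t : ℝ) (i : Fin 3) (x : E3) : ℝ := Real.sin (t * xi i x)

lemma txi_sm (t : ℝ) : Sm (fun x => t * xi i x) := (Sm.const t).mul xi_sm
lemma cs_sm (t : ℝ) : Sm (cs t i) := (txi_sm t).cos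
lemma sn_sm (t : ℝ) : Sm (sn t i) := (txi_sm t).sin

lemma cs_HS (hc : 0 < c) (t : ℝ) : HS c 0 (cs t i) :=
  ⟨cs_sm t, fun x hx => by unfold cs; rw [(xi_HS hc).hom x hx]; simp⟩
lemma sn_HS (hc : 0 < c) (t : ℝ) : HS c 0 (sn t i) :=
  ⟨sn_sm t, fun x hx => by unfold sn; rw [(xi_HS hc).hom x hx]; simp⟩

lemma pd_cs (t : ℝ) (hx : x ≠ 0) (a : Fin 3) :
    pd a (cs t i) x = -t * sn t i x * pd a (xi i) x := by
  unfold cs sn
  rw [pd_cos (txi_sm t) hx, pd_const_mul _ xi_sm hx]; ring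

lemma pd_sn (t : ℝ) (hx : x ≠ 0) (a : Fin 3) :
    pd a (sn t i) x = t * cs t i x * pd a (xi i) x := by
  unfold cs sn
  rw [pd_sin (txi_sm t) hx, pd_const_mul _ xi_sm hx]; ring

lemma pd_pd_cs (t : ℝ) (hx : x ≠ 0) (a : Fin 3) :
    pd a (pd a (cs t i)) x = -t ^ 2 * cs t i x * pd a (xi i) x ^ 2
      - t * sn t i x * pd a (pd a (xi i)) x := by
  have h1 : pd a (pd a (cs t i)) x = pd a (fun x => -t * (sn t i x * pd a (xi i) x)) x :=
    pd_congr (fun y hy => by rw [pd_cs t hy]; ring) hx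
  rw [h1, pd_const_mul _ ((sn_sm t).mul (xi_sm.pd a)) hx, pd_mul (sn_sm t) (xi_sm.pd a) hx,
    pd_sn t hx]
  ring

lemma pd_pd_sn (t : ℝ) (hx : x ≠ 0) (a : Fin 3) :
    pd a (pd a (sn t i)) x = -t ^ 2 * sn t i x * pd a (xi i) x ^ 2
      + t * cs t i x * pd a (pd a (xi i)) x := by
  have h1 : pd a (pd a (sn t i)) x = pd a (fun x => t * (cs t i x * pd a (xi i) x)) x :=
    pd_congr (fun y hy => by rw [pd_sn t hy]; ring) hx
  rw [h1, pd_const_mul _ ((cs_sm t).mul (xi_sm.pd a)) hx, pd_mul (cs_sm t) (xi_sm.pd a) hx,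
    pd_cs t hx]
  ring

lemma Q_cs (t : ℝ) (hx : x ≠ 0) : Q (cs t i) x = t ^ 2 * sn t i x ^ 2 * Q (xi i) x := by
  simp only [Q, pd_cs t hx, Fin.sum_univ_three]; ring
lemma Q_sn (t : ℝ) (hx : x ≠ 0) : Q (sn t i) x = t ^ 2 * cs t i x ^ 2 * Q (xi i) x := by
  simp only [Q, pd_sn t hx, Fin.sum_univ_three]; ring
lemma Dt_cs (t : ℝ) (hx : x ≠ 0) : Dt w (cs t i) x = -t * sn t i x * Dt w (xi i) x := by
  simp only [Dt, pd_cs t hx, Fin.sum_univ_three]; ring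
lemma Dt_sn (t : ℝ) (hx : x ≠ 0) : Dt w (sn t i) x = t * cs t i x * Dt w (xi i) x := by
  simp only [Dt, pd_sn t hx, Fin.sum_univ_three]; ring
lemma Lap_cs (t : ℝ) (hx : x ≠ 0) : Lap (cs t i) x =
    -t ^ 2 * cs t i x * Q (xi i) x - t * sn t i x * Lap (xi i) x := by
  simp only [Lap, Q, pd_pd_cs t hx, Fin.sum_univ_three]; ring
lemma Lap_sn (t : ℝ) (hx : x ≠ 0) : Lap (sn t i) x =
    -t ^ 2 * sn t i x * Q (xi i) x + t * cs t i x * Lap (xi i) x := by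
  simp only [Lap, Q, pd_pd_sn t hx, Fin.sum_univ_three]; ring

lemma cs_sn (t : ℝ) (i : Fin 3) (x : E3) : cs t i x ^ 2 + sn t i x ^ 2 = 1 := by
  unfold cs sn; exact Real.cos_sq_add_sin_sq _

lemma NN_pair (A B C t : ℝ) (hx : x ≠ 0) :
    NN A B C w (cs t i) x + NN A B C w (sn t i) x =
    -(1 / 4) * A * (Real.exp (w x) * (1 / 2 * Q w x * Lap w x
      + t ^ 2 * (Q (xi i) x * (Lap w x - Q w x)) + 2 * t ^ 2 * (Dt w (xi i) x * Lap (xi i) x)))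
    + 9 / 2 * B * Real.exp (-3 * w x)
    - C * (Real.exp (-w x) * (1 / 2 * Q w x + t ^ 2 * Q (xi i) x)) := by
  unfold NN
  rw [Q_cs t hx, Q_sn t hx, Dt_cs t hx, Dt_sn t hx, Lap_cs t hx, Lap_sn t hx]
  have h := cs_sn t i x
  linear_combination (-(1 / 4) * A * (Real.exp (w x) * (1 / 2 * Q w x * Lap w x
      + t ^ 2 * (Q (xi i) x * (Lap w x - Q w x)) + 2 * t ^ 2 * (Dt w (xi i) x * Lap (xi i) x)))
    + 9 / 2 * B * Real.exp (-3 * w x)
    - C * (Real.exp (-w x) * (1 / 2 * Q w x + t ^ 2 * Q (xi i) x))) * h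

lemma NN_sum (A B C t : ℝ) (hx : x ≠ 0) :
    ∑ i, (NN A B C w (cs t i) x + NN A B C w (sn t i) x) =
    -(3 / 8) * A * (Real.exp (w x) * Q w x * Lap w x)
    - (1 / 2) * A * t ^ 2 * (Real.exp (w x) * nn x ^ 2 * (Lap w x - Q w x))
    + 27 / 2 * B * Real.exp (-3 * w x)
    - 3 / 2 * C * (Real.exp (-w x) * Q w x)
    - 2 * C * t ^ 2 * (Real.exp (-w x) * nn x ^ 2) := by
  have h1 := sum_Q_xi hx
  have h2 := sum_Dt_xi (w := w) hx
  simp only [Fin.sum_univ_three] at h1 h2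
  simp only [NN_pair A B C t hx, Fin.sum_univ_three]
  linear_combination (-(1 / 4) * A * Real.exp (w x) * t ^ 2 * (Lap w x - Q w x)
    - C * Real.exp (-w x) * t ^ 2) * h1 + (-(1 / 4) * A * Real.exp (w x) * 2 * t ^ 2) * h2

lemma exp3_sm (hw : Sm w) : Sm (fun x => Real.exp (-3 * w x)) :=
  Sm.exp ((Sm.const _).mul hw)

lemma NN_int_sum (A B C t : ℝ) (hw : Sm w) :
    ∑ i, ((∫ x in Dom c, NN A B C w (cs t i) x) + ∫ x in Dom c, NN A B C w (sn t i) x) =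
    -(3 / 8) * A * (∫ x in Dom c, Real.exp (w x) * Q w x * Lap w x)
    - (1 / 2) * A * t ^ 2 * (∫ x in Dom c, Real.exp (w x) * nn x ^ 2 * (Lap w x - Q w x))
    + 27 / 2 * B * (∫ x in Dom c, Real.exp (-3 * w x))
    - 3 / 2 * C * (∫ x in Dom c, Real.exp (-w x) * Q w x)
    - 2 * C * t ^ 2 * ∫ x in Dom c, Real.exp (-w x) * nn x ^ 2 := by
  have hN : ∀ i : Fin 3, Sm (fun x => NN A B C w (cs t i) x + NN A B C w (sn t i) x) := fun i =>
    (NN_sm hw (cs_sm t)).add (NN_sm hw (sn_sm t))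
  have h1 : ∀ i : Fin 3, (∫ x in Dom c, NN A B C w (cs t i) x) +
      ∫ x in Dom c, NN A B C w (sn t i) x =
      ∫ x in Dom c, (NN A B C w (cs t i) x + NN A B C w (sn t i) x) := fun i =>
    (integral_add (NN_sm hw (cs_sm t)).intOn (NN_sm hw (sn_sm t)).intOn).symm
  simp only [h1]
  rw [← integral_finsetSum _ (fun i _ => (hN i).intOn)]
  have h2 : ∫ x in Dom c, ∑ i, (NN A B C w (cs t i) x + NN A B C w (sn t i) x) =
      ∫ x in Dom c, (-(3 / 8) * A * (Real.exp (w x) * Q w x * Lap w x)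
    - (1 / 2) * A * t ^ 2 * (Real.exp (w x) * nn x ^ 2 * (Lap w x - Q w x))
    + 27 / 2 * B * Real.exp (-3 * w x)
    - 3 / 2 * C * (Real.exp (-w x) * Q w x)
    - 2 * C * t ^ 2 * (Real.exp (-w x) * nn x ^ 2)) :=
    setIntegral_congr_fun Dom_meas fun x hx => NN_sum A B C t (ne_of_mem_Dom hx)
  rw [h2]
  have s1 : Sm (fun x => -(3 / 8) * A * (Real.exp (w x) * Q w x * Lap w x)) :=
    (Sm.const _).mul ((hw.exp.mul hw.Q).mul hw.Lap)
  have s2 : Sm (fun x => (1 / 2) * A * t ^ 2 * (Real.exp (w x) * nn x ^ 2 * (Lap w x - Q w x))) :=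
    (Sm.const _).mul ((hw.exp.mul (nn_sm.pow 2)).mul (hw.Lap.sub hw.Q))
  have s3 : Sm (fun x => 27 / 2 * B * Real.exp (-3 * w x)) := (Sm.const _).mul (exp3_sm hw)
  have s4 : Sm (fun x => 3 / 2 * C * (Real.exp (-w x) * Q w x)) :=
    (Sm.const _).mul (hw.neg.exp.mul hw.Q)
  have s5 : Sm (fun x => 2 * C * t ^ 2 * (Real.exp (-w x) * nn x ^ 2)) :=
    (Sm.const _).mul (hw.neg.exp.mul (nn_sm.pow 2))
  rw [integral_sub (((s1.sub s2).add s3).sub s4).intOn s5.intOn,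
    integral_sub ((s1.sub s2).add s3).intOn s4.intOn,
    integral_add (s1.sub s2).intOn s3.intOn, integral_sub s1.intOn s2.intOn]
  simp only [integral_const_mul]

end Pool.Agent.helper65.Y
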